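import Mathlib

set_option autoImplicit false

namespace Pool.Agent.Results.MP_16e32a_lc.AThetaDetermined

open Finset

/-- Randomised query algorithms on the vertex set `V`, as decision trees.  Every node other than
`output` and `coin` is one query. -/
inductive QueryAlg (V Out : Type) : Type
  | output (o : Out) : QueryAlg V Out
  | randomVertex (next : V → QueryAlg V Out) : QueryAlg V Out
  | degree (v : V) (next : ℕ → QueryAlg V Out) : QueryAlg V Out
  | randomNeighbour (v : V) (next : Option V → QueryAlg V Out) : QueryAlg V Out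
  | coin (p : Set.Icc (0 : ℝ) 1) (next : Bool → QueryAlg V Out) : QueryAlg V Out

/-- At most `q` queries are made on every run. -/
def QueryAlg.MakesAtMost {V Out : Type} : QueryAlg V Out → ℕ → Prop
  | .output _, _ => True
  | .randomVertex _, 0 => False
  | .randomVertex next, q + 1 => ∀ v, (next v).MakesAtMost q
  | .degree _ _, 0 => False
  | .degree _ next, q + 1 => ∀ k, (next k).MakesAtMost q
  | .randomNeighbour _ _, 0 => False
  | .randomNeighbour _ next, q + 1 => ∀ w, (next w).MakesAtMost q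
  | .coin _ next, q => ∀ b, (next b).MakesAtMost q

open Classical in
/-- Probability that the output of the algorithm, run on the graph `G`, lies in `S`. -/
noncomputable def QueryAlg.prob {V Out : Type} [Fintype V] (G : SimpleGraph V) (S : Set Out) :
    QueryAlg V Out → ℝ
  | .output o => if o ∈ S then 1 else 0
  | .randomVertex next => (∑ v : V, (next v).prob G S) / Fintype.card V
  | .degree v next => (next (G.degree v)).prob G S
  | .randomNeighbour v next =>
      if G.degree v = 0 then (next none).prob G S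
      else (∑ w ∈ G.neighborFinset v, (next (some w)).prob G S) / G.degree v
  | .coin p next => p * (next true).prob G S + (1 - p) * (next false).prob G S

open Classical in
/-- `N(x)`: the number of vertices of degree at least `x`. -/
noncomputable def ccdf {V : Type} [Fintype V] (G : SimpleGraph V) (x : ℝ) : ℕ :=
  #{v : V | x ≤ (G.degree v : ℝ)}

open Classical in
/-- `G` has `m` edges, `h = max {d : N(d) ≥ d}` and `μ = min {d N(d) : d ≥ 1, N(d) ≥ 1}`. -/
structure HasParams {V : Type} [Fintype V] (G : SimpleGraph V) (m h μ : ℕ) : Prop where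
  edges : #G.edgeFinset = m
  hindex : IsGreatest {d : ℕ | d ≤ ccdf G d} h
  mu : IsLeast {x : ℕ | ∃ d : ℕ, 1 ≤ d ∧ 1 ≤ ccdf G d ∧ x = d * ccdf G d} μ

/-- `f` approximates `N` within a factor `1 ± ε` at every real `d ≥ 0`. -/
def Approx {V : Type} [Fintype V] (ε : ℝ) (G : SimpleGraph V) (f : ℝ → ℝ) : Prop :=
  ∀ d : ℝ, 0 ≤ d → (1 - ε) * ccdf G d ≤ f d ∧ f d ≤ (1 + ε) * ccdf G d

/-- The guarantee of the problem in its weakest (correctly oriented) reading. -/
def WeakApprox {V : Type} [Fintype V] (ε : ℝ) (G : SimpleGraph V) (f : ℝ → ℝ) : Prop :=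
  ∀ d : ℝ, 0 ≤ d →
    (1 - ε) * ccdf G ((1 + ε) * d) ≤ f d ∧ f d ≤ (1 + ε) * ccdf G ((1 - ε) * d)

/-- There is a graph with `n` vertices and the values `m`, `h`, `μ`. -/
def Realisable (n m h μ : ℕ) : Prop := ∃ G : SimpleGraph (Fin n), HasParams G m h μ

/-- Some algorithm makes at most `q` queries and, on every graph with `n` vertices and the values
`m`, `h`, `μ`, outputs with probability at least `2/3` a function with the property `P`. -/
def Solvable (n m h μ : ℕ) (P : SimpleGraph (Fin n) → (ℝ → ℝ) → Prop) (q : ℕ) : Prop :=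
  ∃ A : QueryAlg (Fin n) (ℝ → ℝ), A.MakesAtMost q ∧
    ∀ G : SimpleGraph (Fin n), HasParams G m h μ → 2 / 3 ≤ A.prob G {f | P G f}

/-- take `s` independent uniform vertices, query their degrees, output a function of these -/
def sampleAlg {V Out : Type} : (s : ℕ) → ((Fin s → ℕ) → Out) → QueryAlg V Out
  | 0, f => .output (f (fun i => i.elim0))
  | s + 1, f => .randomVertex (fun v => .degree v (fun k => sampleAlg s (fun l => f (Fin.cons k l))))

lemma sampleAlg_makes {V Out : Type} : ∀ (s : ℕ) (f : (Fin s → ℕ) → Out),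
    (sampleAlg (V := V) s f).MakesAtMost (2 * s)
  | 0, f => trivial
  | s + 1, f => by
      show (QueryAlg.randomVertex _).MakesAtMost (2 * s + 1 + 1)
      intro v
      show (QueryAlg.degree v _).MakesAtMost (2 * s + 1)
      intro k
      exact sampleAlg_makes s _

open Classical in
lemma sampleAlg_prob {V Out : Type} [Fintype V] (G : SimpleGraph V) (S : Set Out) :
    ∀ (s : ℕ) (f : (Fin s → ℕ) → Out),
    (sampleAlg s f).prob G S
      = (∑ v : Fin s → V, if f (fun i => G.degree (v i)) ∈ S then (1:ℝ) else 0) / (Fintype.card V : ℝ) ^ s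
  | 0, f => by
      simp only [sampleAlg, QueryAlg.prob, pow_zero, div_one]
      rw [Fintype.sum_unique]
      congr
      ext i; exact i.elim0
  | s + 1, f => by
      have ih := fun (v : V) => sampleAlg_prob G S s (fun l => f (Fin.cons (G.degree v) l))
      simp only [sampleAlg, QueryAlg.prob]
      rw [Finset.sum_congr rfl (fun v _ => ih v), ← Finset.sum_div, div_div, pow_succ]
      congr 1
      rw [← Fintype.sum_prod_type (f := fun p : V × (Fin s → V) =>
        if f (Fin.cons (G.degree p.1) (fun i => G.degree (p.2 i))) ∈ S then (1:ℝ) else 0)]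
      refine Fintype.sum_equiv (Fin.consEquiv (fun _ => V)) _ _ ?_
      rintro ⟨x, v⟩
      have : (fun i => G.degree ((Fin.consEquiv (fun _ => V)) (x, v) i))
          = (Fin.cons (G.degree x) (fun i => G.degree (v i)) : Fin (s+1) → ℕ) := by
        ext i
        refine Fin.cases ?_ ?_ i
        · rfl
        · intro j; rfl
      rw [this]


section
variable {ι V : Type} [Fintype ι] [DecidableEq ι] [Fintype V]

lemma sum_update (i : ι) (f : (ι → V) → ℝ) :
    (Fintype.card V : ℝ) * ∑ v, f v = ∑ v : ι → V, ∑ x : V, f (Function.update v i x) := by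
  classical
  have h1 : ∑ v : ι → V, ∑ x : V, f (Function.update v i x)
      = ∑ p : (ι → V) × V, f (Function.update p.1 i p.2) := by
    rw [Fintype.sum_prod_type]
  have h2 : ∑ p : (ι → V) × V, f (Function.update p.1 i p.2) = ∑ p : (ι → V) × V, f p.1 := by
    refine Fintype.sum_bijective
      (fun p : (ι → V) × V => ((Function.update p.1 i p.2, p.1 i) : (ι → V) × V)) ?_ _ _ ?_
    · refine Function.Involutive.bijective ?_
      rintro ⟨v, x⟩
      simp
    · rintro ⟨v, x⟩
      rfl
  rw [h1, h2, Fintype.sum_prod_type]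
  simp [Finset.mul_sum, mul_comm]

/-- number of points with value at least d -/
noncomputable def cnt (c : V → ℕ) (d : ℕ) : ℝ := (#{x : V | d ≤ c x} : ℝ)

/-- centred and scaled empirical count -/
noncomputable def T (c : V → ℕ) (d : ℕ) (k : ι → ℕ) : ℝ :=
  ∑ i : ι, ((if d ≤ k i then (Fintype.card V : ℝ) / cnt c d else 0) - 1)

lemma cnt_eq_sum (c : V → ℕ) (d : ℕ) : ∑ x : V, (if d ≤ c x then (1:ℝ) else 0) = cnt c d := by
  simp [cnt]

lemma sum_ite_cnt (c : V → ℕ) (d : ℕ) (hd : 0 < cnt c d) :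
    ∑ x : V, (if d ≤ c x then (Fintype.card V : ℝ) / cnt c d else 0) = Fintype.card V := by
  have : ∀ x : V, (if d ≤ c x then (Fintype.card V : ℝ) / cnt c d else 0)
      = (if d ≤ c x then (1:ℝ) else 0) * ((Fintype.card V : ℝ) / cnt c d) := by
    intro x; split_ifs <;> simp
  rw [Finset.sum_congr rfl (fun x _ => this x), ← Finset.sum_mul, cnt_eq_sum]
  field_simp

lemma sum_xi (c : V → ℕ) (d : ℕ) (hd : 0 < cnt c d) :
    ∑ x : V, ((if d ≤ c x then (Fintype.card V : ℝ) / cnt c d else 0) - 1) = 0 := by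
  rw [Finset.sum_sub_distrib, sum_ite_cnt c d hd]
  simp

lemma sum_xi_sq (c : V → ℕ) (d : ℕ) (hd : 0 < cnt c d) :
    ∑ x : V, ((if d ≤ c x then (Fintype.card V : ℝ) / cnt c d else 0) - 1) ^ 2
      ≤ (Fintype.card V : ℝ) ^ 2 / cnt c d := by
  have h1 : ∀ x : V, ((if d ≤ c x then (Fintype.card V : ℝ) / cnt c d else 0) - 1) ^ 2
      = (if d ≤ c x then (Fintype.card V : ℝ) / cnt c d else 0) * ((Fintype.card V : ℝ) / cnt c d)
        - 2 * (if d ≤ c x then (Fintype.card V : ℝ) / cnt c d else 0) + 1 := by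
    intro x; split_ifs <;> ring
  rw [Finset.sum_congr rfl (fun x _ => h1 x), Finset.sum_add_distrib, Finset.sum_sub_distrib,
    ← Finset.sum_mul, ← Finset.mul_sum, sum_ite_cnt c d hd]
  simp only [Finset.sum_const, Finset.card_univ, nsmul_eq_mul, mul_one]
  have : (0:ℝ) ≤ Fintype.card V := by positivity
  have e : (Fintype.card V : ℝ) * ((Fintype.card V : ℝ) / cnt c d)
      = (Fintype.card V : ℝ) ^ 2 / cnt c d := by ring
  rw [e]
  linarith

lemma orth (c : V → ℕ) {d h : ℕ} (hdh : d ≤ h) (hh : 0 < cnt c h) (hd : 0 < cnt c d) (i : ι)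
    (hn : 0 < (Fintype.card V : ℝ))
    (Φ : (ι → ℕ) → ℝ) (hΦ : ∀ k, Φ k = Φ (fun j => min (k j) d)) :
    ∑ v : ι → V, ((if h ≤ c (v i) then (Fintype.card V : ℝ) / cnt c h else 0)
      - (if d ≤ c (v i) then (Fintype.card V : ℝ) / cnt c d else 0)) * Φ (fun j => c (v j)) = 0 := by
  classical
  have key := sum_update (V := V) i (fun v : ι → V =>
    ((if h ≤ c (v i) then (Fintype.card V : ℝ) / cnt c h else 0)
      - (if d ≤ c (v i) then (Fintype.card V : ℝ) / cnt c d else 0)) * Φ (fun j => c (v j)))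
  have hz : ∀ v : ι → V, ∑ x : V, (fun v : ι → V =>
    ((if h ≤ c (v i) then (Fintype.card V : ℝ) / cnt c h else 0)
      - (if d ≤ c (v i) then (Fintype.card V : ℝ) / cnt c d else 0)) * Φ (fun j => c (v j)))
        (Function.update v i x) = 0 := by
    intro v
    have h1 : ∀ x : V, (fun v : ι → V =>
      ((if h ≤ c (v i) then (Fintype.card V : ℝ) / cnt c h else 0)
        - (if d ≤ c (v i) then (Fintype.card V : ℝ) / cnt c d else 0)) * Φ (fun j => c (v j)))
          (Function.update v i x)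
        = ((if h ≤ c x then (Fintype.card V : ℝ) / cnt c h else 0)
        - (if d ≤ c x then (Fintype.card V : ℝ) / cnt c d else 0))
          * Φ (Function.update (fun j => min (c (v j)) d) i d) := by
      intro x
      simp only [Function.update_self]
      by_cases hx : d ≤ c x
      · congr 1
        rw [hΦ]
        congr 1
        ext j
        by_cases hj : j = i
        · subst hj; simp [hx]
        · simp [hj]
      · have hx' : ¬ h ≤ c x := fun h' => hx (hdh.trans h')
        simp [hx, hx']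
    rw [Finset.sum_congr rfl (fun x _ => h1 x), ← Finset.sum_mul, Finset.sum_sub_distrib,
      sum_ite_cnt c h hh, sum_ite_cnt c d hd]
    simp
  rw [Finset.sum_congr rfl (fun v _ => hz v)] at key
  simp only [Finset.sum_const_zero] at key
  rcases mul_eq_zero.mp key with h0 | h0
  · exact absurd h0 hn.ne'
  · exact h0

lemma orthT (c : V → ℕ) {d h : ℕ} (hdh : d ≤ h) (hh : 0 < cnt c h) (hd : 0 < cnt c d)
    (hn : 0 < (Fintype.card V : ℝ))
    (Φ : (ι → ℕ) → ℝ) (hΦ : ∀ k, Φ k = Φ (fun j => min (k j) d)) :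
    ∑ v : ι → V, (T c h (fun j => c (v j)) - T c d (fun j => c (v j))) * Φ (fun j => c (v j)) = 0 := by
  have h1 : ∀ v : ι → V, (T c h (fun j => c (v j)) - T c d (fun j => c (v j)))
      * Φ (fun j => c (v j)) = ∑ i : ι, ((if h ≤ c (v i) then (Fintype.card V : ℝ) / cnt c h else 0)
      - (if d ≤ c (v i) then (Fintype.card V : ℝ) / cnt c d else 0)) * Φ (fun j => c (v j)) := by
    intro v
    rw [← Finset.sum_mul]
    congr 1
    unfold T
    rw [← Finset.sum_sub_distrib]
    refine Finset.sum_congr rfl (fun i _ => ?_)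
    ring
  rw [Finset.sum_congr rfl (fun v _ => h1 v), Finset.sum_comm]
  refine Finset.sum_eq_zero (fun i _ => ?_)
  exact orth c hdh hh hd i hn Φ hΦ

lemma second_moment (c : V → ℕ) {h : ℕ} (hh : 0 < cnt c h) (hn : 0 < (Fintype.card V : ℝ)) :
    ∑ v : ι → V, (T c h (fun j => c (v j))) ^ 2
      ≤ (Fintype.card V : ℝ) ^ (Fintype.card ι) * (Fintype.card ι * ((Fintype.card V : ℝ) / cnt c h)) := by
  classical
  set ξ : ℕ → ℝ := fun y => (if h ≤ y then (Fintype.card V : ℝ) / cnt c h else 0) - 1 with hξ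
  have h1 : ∀ v : ι → V, (T c h (fun j => c (v j))) ^ 2
      = ∑ i : ι, ∑ j : ι, ξ (c (v i)) * ξ (c (v j)) := by
    intro v
    rw [← Finset.sum_mul_sum, ← sq]
    rfl
  rw [Finset.sum_congr rfl (fun v _ => h1 v), Finset.sum_comm]
  have h2 : ∀ i : ι, ∑ v : ι → V, ∑ j : ι, ξ (c (v i)) * ξ (c (v j))
      ≤ (Fintype.card V : ℝ) ^ (Fintype.card ι) * ((Fintype.card V : ℝ) / cnt c h) := by
    intro i
    rw [Finset.sum_comm]
    have h3 : ∀ j ≠ i, ∑ v : ι → V, ξ (c (v i)) * ξ (c (v j)) = 0 := by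
      intro j hj
      have key := sum_update (V := V) i (fun v : ι → V => ξ (c (v i)) * ξ (c (v j)))
      have : ∀ v : ι → V, ∑ x : V, (fun v : ι → V => ξ (c (v i)) * ξ (c (v j)))
          (Function.update v i x) = 0 := by
        intro v
        simp only [Function.update_self, Function.update_of_ne hj]
        rw [← Finset.sum_mul]
        rw [hξ]
        simp only
        rw [sum_xi c h hh]
        simp
      rw [Finset.sum_congr rfl (fun v _ => this v)] at key
      simp only [Finset.sum_const_zero] at key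
      rcases mul_eq_zero.mp key with h0 | h0
      · exact absurd h0 hn.ne'
      · exact h0
    rw [Finset.sum_eq_single i (fun j _ hj => h3 j hj) (by simp)]
    have key := sum_update (V := V) i (fun v : ι → V => ξ (c (v i)) * ξ (c (v i)))
    have h4 : ∀ v : ι → V, ∑ x : V, (fun v : ι → V => ξ (c (v i)) * ξ (c (v i)))
          (Function.update v i x) ≤ (Fintype.card V : ℝ) ^ 2 / cnt c h := by
      intro v
      simp only [Function.update_self]
      have := sum_xi_sq c h hh
      simpa [hξ, sq] using this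
    have h5 : (Fintype.card V : ℝ) * ∑ v : ι → V, ξ (c (v i)) * ξ (c (v i))
        ≤ (Fintype.card V : ℝ) ^ (Fintype.card ι) * ((Fintype.card V : ℝ) ^ 2 / cnt c h) := by
      rw [key]
      refine (Finset.sum_le_sum (fun v _ => h4 v)).trans ?_
      simp
    have h6 : (Fintype.card V : ℝ) ^ (Fintype.card ι) * ((Fintype.card V : ℝ) ^ 2 / cnt c h)
        = (Fintype.card V : ℝ) * ((Fintype.card V : ℝ) ^ (Fintype.card ι) *
          ((Fintype.card V : ℝ) / cnt c h)) := by ring
    rw [h6] at h5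
    exact le_of_mul_le_mul_left h5 hn
  refine (Finset.sum_le_sum (fun i _ => h2 i)).trans ?_
  simp only [Finset.sum_const, Finset.card_univ, nsmul_eq_mul]
  apply le_of_eq; ring

/-- maximal inequality for nested classes -/
theorem maximal (c : V → ℕ) {h : ℕ} (hh : 0 < cnt c h) (hn : 0 < (Fintype.card V : ℝ))
    (t : ℝ) (ht : 0 < t) :
    (#{v : ι → V | ∃ d ≤ h, t < |T c d (fun j => c (v j))|} : ℝ) * t ^ 2
      ≤ (Fintype.card V : ℝ) ^ (Fintype.card ι) * (Fintype.card ι * ((Fintype.card V : ℝ) / cnt c h)) := by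
  classical
  have hmono : ∀ d ≤ h, 0 < cnt c d := by
    intro d hd
    refine lt_of_lt_of_le hh ?_
    unfold cnt
    exact_mod_cast Finset.card_le_card (fun x hx => by
      simp only [Finset.mem_filter, Finset.mem_univ, true_and] at hx ⊢
      exact hd.trans hx)
  -- first passage functions
  set E : ℕ → (ι → ℕ) → Prop := fun d k => t < |T c d k| ∧ ∀ d' < d, ¬ t < |T c d' k| with hE
  have hTmin : ∀ d d' : ℕ, d' ≤ d → ∀ k : ι → ℕ, T c d' k = T c d' (fun j => min (k j) d) := by
    intro d d' hd k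
    unfold T
    refine Finset.sum_congr rfl (fun i _ => ?_)
    have : (d' ≤ k i) ↔ (d' ≤ min (k i) d) := by
      constructor
      · intro h1; exact le_min h1 hd
      · intro h1; exact h1.trans (min_le_left _ _)
    simp only [this]
  have hEmin : ∀ d : ℕ, ∀ k : ι → ℕ, E d k ↔ E d (fun j => min (k j) d) := by
    intro d k
    simp only [hE]
    rw [← hTmin d d le_rfl k]
    constructor
    · rintro ⟨h1, h2⟩
      refine ⟨h1, fun d' hd' => ?_⟩
      rw [← hTmin d d' hd'.le k]; exact h2 d' hd'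
    · rintro ⟨h1, h2⟩
      refine ⟨h1, fun d' hd' => ?_⟩
      have := h2 d' hd'
      rw [← hTmin d d' hd'.le k] at this; exact this
  have step : ∀ d ≤ h, ∑ v : ι → V, (if E d (fun j => c (v j)) then t ^ 2 else 0)
      ≤ ∑ v : ι → V, (if E d (fun j => c (v j)) then (T c h (fun j => c (v j))) ^ 2 else 0) := by
    intro d hd
    have ho := orthT (ι := ι) c hd hh (hmono d hd) hn
      (fun k => if E d k then T c d k else 0) (by
        intro k
        have := hEmin d k
        by_cases h1 : E d k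
        · rw [if_pos h1, if_pos (this.mp h1), ← hTmin d d le_rfl k]
        · rw [if_neg h1, if_neg (fun h2 => h1 (this.mpr h2))])
    have h2 : ∑ v : ι → V, (if E d (fun j => c (v j)) then t ^ 2 else 0)
      ≤ ∑ v : ι → V, ((if E d (fun j => c (v j)) then (T c h (fun j => c (v j))) ^ 2 else 0)
        - 2 * ((T c h (fun j => c (v j)) - T c d (fun j => c (v j))) *
          (if E d (fun j => c (v j)) then T c d (fun j => c (v j)) else 0))) := by
      refine Finset.sum_le_sum (fun v _ => ?_)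
      by_cases h1 : E d (fun j => c (v j))
      · simp only [if_pos h1]
        have h3 : t < |T c d (fun j => c (v j))| := h1.1
        have h4 : t ^ 2 ≤ (T c d (fun j => c (v j))) ^ 2 := by
          rw [← sq_abs (T c d (fun j => c (v j)))]
          exact pow_le_pow_left₀ ht.le h3.le 2
        nlinarith [sq_nonneg (T c h (fun j => c (v j)) - T c d (fun j => c (v j)))]
      · simp [if_neg h1]
    rw [Finset.sum_sub_distrib, ← Finset.mul_sum, ho] at h2
    simpa using h2
  have hdisj : ∀ k : ι → ℕ, (∃ d ≤ h, t < |T c d k|) → ∃ d ≤ h, E d k := by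
    intro k hk
    obtain ⟨d, hd, hk⟩ := hk
    have hex : ∃ d, t < |T c d k| := ⟨d, hk⟩
    refine ⟨Nat.find hex, (Nat.find_min' hex hk).trans hd, Nat.find_spec hex, ?_⟩
    intro d' hd'
    exact Nat.find_min hex hd'
  have huniq : ∀ k : ι → ℕ, ∀ d1 d2, E d1 k → E d2 k → d1 = d2 := by
    intro k d1 d2 h1 h2
    rcases lt_trichotomy d1 d2 with h3 | h3 | h3
    · exact absurd h1.1 (h2.2 d1 h3)
    · exact h3
    · exact absurd h2.1 (h1.2 d2 h3)
  have hL : (#{v : ι → V | ∃ d ≤ h, t < |T c d (fun j => c (v j))|} : ℝ) * t ^ 2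
      ≤ ∑ d ∈ Finset.range (h+1), ∑ v : ι → V, (if E d (fun j => c (v j)) then t ^ 2 else 0) := by
    rw [Finset.sum_comm]
    have : (#{v : ι → V | ∃ d ≤ h, t < |T c d (fun j => c (v j))|} : ℝ) * t ^ 2
      = ∑ v : ι → V, (if (∃ d ≤ h, t < |T c d (fun j => c (v j))|) then t ^ 2 else 0) := by
      rw [Finset.sum_ite]
      simp
    rw [this]
    refine Finset.sum_le_sum (fun v _ => ?_)
    split_ifs with h1
    · obtain ⟨d, hd, hE'⟩ := hdisj _ h1
      refine le_trans ?_ (Finset.single_le_sum (f := fun d => if E d (fun j => c (v j)) then t ^ 2 else 0)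
        (fun d _ => by positivity) (Finset.mem_range.mpr (Nat.lt_succ_of_le hd)))
      simp [hE']
    · exact Finset.sum_nonneg (fun d _ => by positivity)
  refine hL.trans ?_
  refine (Finset.sum_le_sum (fun d hd => step d (Nat.lt_succ_iff.mp (Finset.mem_range.mp hd)))).trans ?_
  rw [Finset.sum_comm]
  refine le_trans ?_ (second_moment (ι := ι) c hh hn)
  refine Finset.sum_le_sum (fun v _ => ?_)
  by_cases h1 : ∃ d ∈ Finset.range (h+1), E d (fun j => c (v j))
  · obtain ⟨d, hd, hE'⟩ := h1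
    rw [Finset.sum_eq_single d]
    · simp [hE']
    · intro d' _ hne
      rw [if_neg]
      intro h2
      exact hne (huniq _ _ _ h2 hE')
    · intro h3; exact absurd hd h3
  · push Not at h1
    rw [Finset.sum_eq_zero]
    · positivity
    · intro d hd
      rw [if_neg (h1 d hd)]

end


/-! ### Consequences of the parameters -/

lemma ccdf_nat {V : Type} [Fintype V] (G : SimpleGraph V) (d : ℕ) :
    (ccdf G (d : ℝ) : ℝ) = cnt (fun v => by classical exact G.degree v) d := by
  classical
  unfold ccdf cnt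
  norm_cast

lemma ccdf_eq_ceil {V : Type} [Fintype V] (G : SimpleGraph V) (x : ℝ) :
    ccdf G x = ccdf G ((⌈x⌉₊ : ℕ) : ℝ) := by
  classical
  unfold ccdf
  congr 1
  ext v
  simp only [Finset.mem_filter, Finset.mem_univ, true_and, Nat.cast_le]
  exact (Nat.ceil_le).symm

lemma ccdf_zero {V : Type} [Fintype V] (G : SimpleGraph V) :
    ccdf G ((0 : ℕ) : ℝ) = Fintype.card V := by
  classical
  unfold ccdf
  simp

lemma ccdf_anti {V : Type} [Fintype V] (G : SimpleGraph V) {x y : ℝ} (h : x ≤ y) :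
    ccdf G y ≤ ccdf G x := by
  classical
  unfold ccdf
  refine Finset.card_le_card (fun v hv => ?_)
  simp only [Finset.mem_filter, Finset.mem_univ, true_and] at hv ⊢
  exact h.trans hv

lemma params_top {V : Type} [Fintype V] {G : SimpleGraph V} {m h μ : ℕ} (hG : HasParams G m h μ)
    (hμ : h * (h + 1) < μ) (d : ℕ) (hd : h < d) : ccdf G (d : ℝ) = 0 := by
  have h1 : ccdf G ((h + 1 : ℕ) : ℝ) ≤ h := by
    by_contra hc
    have : (h + 1 : ℕ) ∈ {d : ℕ | d ≤ ccdf G d} := by
      show h + 1 ≤ ccdf G ((h + 1 : ℕ) : ℝ)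
      omega
    have := hG.hindex.2 this
    omega
  have h2 : ccdf G ((h + 1 : ℕ) : ℝ) = 0 := by
    by_contra hc
    have h3 : μ ≤ (h + 1) * ccdf G ((h + 1 : ℕ) : ℝ) :=
      hG.mu.2 ⟨h + 1, by omega, Nat.one_le_iff_ne_zero.mpr hc, rfl⟩
    have h4 : (h + 1) * ccdf G ((h + 1 : ℕ) : ℝ) ≤ (h + 1) * h := Nat.mul_le_mul_left _ h1
    have : (h + 1) * h = h * (h + 1) := by ring
    omega
  have h3 : ccdf G (d : ℝ) ≤ ccdf G ((h + 1 : ℕ) : ℝ) := ccdf_anti G (by exact_mod_cast hd)
  omega

lemma params_h {V : Type} [Fintype V] {G : SimpleGraph V} {m h μ : ℕ} (hG : HasParams G m h μ)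
    (hh : 1 ≤ h) : 1 ≤ ccdf G (h : ℝ) ∧ μ ≤ h * ccdf G (h : ℝ) := by
  have h1 : h ≤ ccdf G (h : ℝ) := hG.hindex.1
  exact ⟨hh.trans h1, hG.mu.2 ⟨h, hh, hh.trans h1, rfl⟩⟩

lemma params_n {V : Type} [Fintype V] {G : SimpleGraph V} {m h μ : ℕ} (hG : HasParams G m h μ)
    (hh : 1 ≤ h) : μ ≤ Fintype.card V := by
  classical
  have h1 := (params_h hG hh).1
  have h2 : ccdf G (h : ℝ) ≤ ccdf G ((1 : ℕ) : ℝ) := ccdf_anti G (by exact_mod_cast hh)
  have h3 : μ ≤ 1 * ccdf G ((1 : ℕ) : ℝ) := hG.mu.2 ⟨1, le_rfl, h1.trans h2, rfl⟩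
  have h4 : ccdf G ((1 : ℕ) : ℝ) ≤ Fintype.card V := by
    unfold ccdf
    exact Finset.card_le_univ _
  omega

/-- output function of the sampling algorithm -/
noncomputable def est (n h s : ℕ) (k : Fin s → ℕ) : ℝ → ℝ := fun x =>
  if x ≤ 0 then n else if x ≤ h then (n : ℝ) / s * (#{i : Fin s | x ≤ (k i : ℝ)} : ℝ) else 0

open Classical in
lemma est_good {V : Type} [Fintype V] {G : SimpleGraph V} {m h μ : ℕ} (hG : HasParams G m h μ)
    (hh : 1 ≤ h) (hμ : h * (h + 1) < μ) {ε : ℝ} (hε : 0 < ε) {s : ℕ} (hs : 0 < s)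
    (v : Fin s → V)
    (hv : ¬ ∃ d ≤ h, ε * s < |T (fun v => G.degree v) d (fun j => G.degree (v j))|) :
    Approx ε G (est (Fintype.card V) h s (fun i => G.degree (v i))) := by
  intro x hx
  have hs' : (0 : ℝ) < s := by exact_mod_cast hs
  unfold est
  by_cases h0 : x ≤ 0
  · have : x = 0 := le_antisymm h0 hx
    subst this
    have hc : ccdf G (0:ℝ) = Fintype.card V := by
      have := ccdf_zero G
      simpa using this
    rw [if_pos le_rfl, hc]
    have : (0:ℝ) ≤ Fintype.card V := by positivity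
    constructor <;> nlinarith
  · rw [if_neg h0]
    by_cases h1 : x ≤ h
    · rw [if_pos h1]
      set d := ⌈x⌉₊ with hd
      have hdh : d ≤ h := Nat.ceil_le.mpr h1
      have hcc : (ccdf G x : ℝ) = cnt (fun v => G.degree v) d := by
        rw [ccdf_eq_ceil G x, ← hd, ccdf_nat]
      have hpos : 0 < cnt (fun v => G.degree v) d := by
        rw [← hcc]
        have h2 := (params_h hG hh).1
        have h3 : ccdf G (h : ℝ) ≤ ccdf G x := ccdf_anti G h1
        exact_mod_cast lt_of_lt_of_le Nat.zero_lt_one (h2.trans h3)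
      have hT : |T (fun v => G.degree v) d (fun j => G.degree (v j))| ≤ ε * s := by
        by_contra hc
        exact hv ⟨d, hdh, not_le.mp hc⟩
      have hTe : T (fun v => G.degree v) d (fun j => G.degree (v j))
          = (#{i : Fin s | x ≤ (G.degree (v i) : ℝ)} : ℝ)
            * ((Fintype.card V : ℝ) / cnt (fun v => G.degree v) d) - s := by
        unfold T
        rw [Finset.sum_sub_distrib, ← Finset.sum_filter]
        simp only [Finset.sum_const, nsmul_eq_mul, Finset.card_univ, Fintype.card_fin, mul_one]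
        have hset : (Finset.univ.filter (fun i : Fin s => d ≤ G.degree (v i)))
            = Finset.univ.filter (fun i : Fin s => x ≤ (G.degree (v i) : ℝ)) := by
          ext i
          simp only [Finset.mem_filter, Finset.mem_univ, true_and]
          rw [hd]
          exact Nat.ceil_le
        rw [hset]
      rw [hTe, abs_le] at hT
      rw [hcc]
      set X : ℝ := (#{i : Fin s | x ≤ (G.degree (v i) : ℝ)} : ℝ)
      set a : ℝ := cnt (fun v => G.degree v) d
      set n : ℝ := (Fintype.card V : ℝ)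
      have e1 : n / s * X = (X * (n / a)) * a / s := by
        field_simp
      rw [e1]
      constructor
      · rw [le_div_iff₀ hs']
        nlinarith [hT.1, hT.2]
      · rw [div_le_iff₀ hs']
        nlinarith [hT.1, hT.2]
    · rw [if_neg h1]
      have h2 : ccdf G x = 0 := by
        rw [ccdf_eq_ceil G x]
        refine params_top hG hμ _ ?_
        have : (h : ℝ) < x := not_le.mp h1
        exact Nat.lt_ceil.mpr this
      rw [h2]
      simp

open Classical in
theorem upper (n m h μ : ℕ) (ε : ℝ) (hε : 0 < ε) (hε1 : ε < 1) (hh : 1 ≤ h)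
    (hμ : h * (h + 1) < μ) :
    ∃ (A : QueryAlg (Fin n) (ℝ → ℝ)) (q : ℕ), A.MakesAtMost q ∧
      (q : ℝ) ≤ 8 * n * h / (μ * ε ^ 2) ∧
      ∀ G : SimpleGraph (Fin n), HasParams G m h μ → 2 / 3 ≤ A.prob G {f | Approx ε G f} := by
  by_cases hn : μ ≤ n
  · have hμ0 : (0 : ℝ) < μ := by
      have : 0 < μ := by omega
      exact_mod_cast this
    have hn0 : (0 : ℝ) < n := lt_of_lt_of_le hμ0 (by exact_mod_cast hn)
    have hh0 : (1 : ℝ) ≤ h := by exact_mod_cast hh
    set s : ℕ := ⌈3 * n * h / (μ * ε ^ 2)⌉₊ with hs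
    have hspos : 0 < s := by
      rw [hs]
      apply Nat.ceil_pos.mpr
      positivity
    have hsle : (3 * n * h / (μ * ε ^ 2) : ℝ) ≤ s := Nat.le_ceil _
    refine ⟨sampleAlg s (est n h s), 2 * s, sampleAlg_makes s _, ?_, ?_⟩
    · have h1 : (s : ℝ) ≤ 3 * n * h / (μ * ε ^ 2) + 1 := (Nat.ceil_lt_add_one (by positivity)).le
      have h2 : (1 : ℝ) ≤ n * h / (μ * ε ^ 2) := by
        rw [le_div_iff₀ (by positivity)]
        have : (μ : ℝ) ≤ n := by exact_mod_cast hn
        have h3 : ε ^ 2 ≤ 1 := by nlinarith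
        nlinarith
      have h3 : (3 * n * h / (μ * ε ^ 2) : ℝ) = 3 * (n * h / (μ * ε ^ 2)) := by ring
      have h4 : (8 * n * h / (μ * ε ^ 2) : ℝ) = 8 * (n * h / (μ * ε ^ 2)) := by ring
      push_cast
      rw [h4]
      rw [h3] at h1
      linarith
    · intro G hG
      rw [sampleAlg_prob]
      have hN := params_h hG hh
      have hcnt : cnt (fun v => G.degree v) h = (ccdf G (h : ℝ) : ℝ) := (ccdf_nat G h).symm
      have hcpos : 0 < cnt (fun v => G.degree v) h := by
        rw [hcnt]; exact_mod_cast hN.1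
      have hcard : (Fintype.card (Fin n) : ℝ) = n := by simp
      have hmax := maximal (ι := Fin s) (V := Fin n) (fun v => G.degree v) hcpos
        (by rw [hcard]; exact hn0) (ε * s) (by positivity)
      rw [hcard] at hmax ⊢
      simp only [Fintype.card_fin] at hmax
      set bad : ℝ := (#{v : Fin s → Fin n | ∃ d ≤ h,
        ε * s < |T (fun v => G.degree v) d (fun j => G.degree (v j))|} : ℝ) with hbad
      -- number of good samples
      have hgood : (n : ℝ) ^ s - bad ≤ ∑ v : Fin s → Fin n,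
          (if est n h s (fun i => G.degree (v i)) ∈ {f | Approx ε G f} then (1:ℝ) else 0) := by
        have e1 : (n : ℝ) ^ s - bad = ∑ v : Fin s → Fin n, (1 - (if ∃ d ≤ h,
            ε * s < |T (fun v => G.degree v) d (fun j => G.degree (v j))| then (1:ℝ) else 0)) := by
          rw [Finset.sum_sub_distrib, hbad]
          simp
        rw [e1]
        refine Finset.sum_le_sum (fun v _ => ?_)
        by_cases h1 : ∃ d ≤ h,
            ε * s < |T (fun v => G.degree v) d (fun j => G.degree (v j))|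
        · rw [if_pos h1]
          simp only [sub_self]
          positivity
        · rw [if_neg h1]
          have h2 := est_good hG hh hμ hε hspos v h1
          simp only [Fintype.card_fin] at h2
          rw [if_pos (show _ ∈ {f | Approx ε G f} from h2)]
          simp
      have hs0 : (0 : ℝ) < s := by exact_mod_cast hspos
      have hns : (0 : ℝ) < (n : ℝ) ^ s := by positivity
      have hbad3 : bad ≤ (n : ℝ) ^ s / 3 := by
        have h5 : (μ : ℝ) ≤ h * cnt (fun v => G.degree v) h := by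
          rw [hcnt]; exact_mod_cast hN.2
        -- n / cnt ≤ n h / μ
        have h6 : (n : ℝ) / cnt (fun v => G.degree v) h ≤ n * h / μ := by
          rw [div_le_div_iff₀ hcpos hμ0]
          nlinarith
        have h7 : 3 * (n * h / μ) ≤ ε ^ 2 * s := by
          have : (3 * n * h / (μ * ε ^ 2) : ℝ) * ε ^ 2 ≤ s * ε ^ 2 :=
            mul_le_mul_of_nonneg_right hsle (by positivity)
          have e2 : (3 * n * h / (μ * ε ^ 2) : ℝ) * ε ^ 2 = 3 * (n * h / μ) := by
            field_simp
          linarith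
        have h8 : bad * (ε * s) ^ 2 ≤ (n : ℝ) ^ s * (s * (ε ^ 2 * s / 3)) := by
          refine hmax.trans ?_
          refine mul_le_mul_of_nonneg_left ?_ hns.le
          refine mul_le_mul_of_nonneg_left ?_ hs0.le
          linarith
        have h9 : (n : ℝ) ^ s * (s * (ε ^ 2 * s / 3)) = ((n : ℝ) ^ s / 3) * (ε * s) ^ 2 := by ring
        rw [h9] at h8
        exact le_of_mul_le_mul_right h8 (by positivity)
      rw [le_div_iff₀ hns]
      linarith
  · refine ⟨.output (fun _ => 0), 0, trivial, by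
      simp only [Nat.cast_zero]
      positivity, ?_⟩
    intro G hG
    exact absurd (by simpa using params_n hG hh) hn


/-! ### Realisable parameters -/

/-- disjoint union of cliques, given by a labelling of the vertices -/
def cluster {V K : Type} (cls : V → K) : SimpleGraph V where
  Adj u v := u ≠ v ∧ cls u = cls v
  symm := ⟨fun _ _ h => ⟨h.1.symm, h.2.symm⟩⟩
  loopless := ⟨fun _ h => h.1 rfl⟩

open Classical in
lemma cluster_degree {V K : Type} [Fintype V] (cls : V → K) (u : V) :
    (cluster cls).degree u = #{v : V | cls v = cls u} - 1 := by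
  have : (cluster cls).neighborFinset u = (Finset.univ.filter (fun v => cls v = cls u)).erase u := by
    ext v
    simp only [SimpleGraph.mem_neighborFinset, Finset.mem_erase, Finset.mem_filter,
      Finset.mem_univ, true_and]
    constructor
    · rintro ⟨h1, h2⟩; exact ⟨h1.symm, h2.symm⟩
    · rintro ⟨h1, h2⟩; exact ⟨h1.symm, h2.symm⟩
  rw [← SimpleGraph.card_neighborFinset_eq_degree, this, Finset.card_erase_of_mem (by simp)]

/-- key of a vertex -/
def key (g h e r : ℕ) : (Fin g × Fin (h + 1)) ⊕ ((Fin e × Fin 2) ⊕ Fin r) → Fin g ⊕ (Fin e ⊕ Fin r) :=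
  Sum.elim (fun p => Sum.inl p.1) (Sum.elim (fun p => Sum.inr (Sum.inl p.1)) (fun p => Sum.inr (Sum.inr p)))

/-- degree of a vertex -/
def kdeg (g h e r : ℕ) : (Fin g × Fin (h + 1)) ⊕ ((Fin e × Fin 2) ⊕ Fin r) → ℕ :=
  Sum.elim (fun _ => h) (Sum.elim (fun _ => 1) (fun _ => 0))

open Classical in
lemma key_fiber (g h e r : ℕ) (u : (Fin g × Fin (h + 1)) ⊕ ((Fin e × Fin 2) ⊕ Fin r)) :
    #{w : (Fin g × Fin (h + 1)) ⊕ ((Fin e × Fin 2) ⊕ Fin r) | key g h e r w = key g h e r u} - 1
      = kdeg g h e r u := by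
  rw [Finset.card_filter]
  rcases u with ⟨a, b⟩ | ⟨⟨a, b⟩ | a⟩
  · have h1 : (Finset.univ.filter (fun x : Fin g × Fin (h + 1) => x.1 = a)) = {a} ×ˢ Finset.univ := by
      ext ⟨x, y⟩; simp [eq_comm]
    simp [key, kdeg, Fintype.sum_sum_type, h1]
  · have h1 : (Finset.univ.filter (fun x : Fin e × Fin 2 => x.1 = a)) = {a} ×ˢ Finset.univ := by
      ext ⟨x, y⟩; simp [eq_comm]
    simp [key, kdeg, Fintype.sum_sum_type, h1]
  · simp [key, kdeg, Fintype.sum_sum_type]

open Classical in
theorem realisable (h g e n : ℕ) (hh : 2 ≤ h) (hg : h < g) (he : 2 * e ≤ (h + 1) * g)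
    (hn : (h + 1) * g + 2 * e ≤ n) :
    ∃ G : SimpleGraph (Fin n), HasParams G (g * (h * (h + 1) / 2) + e) h ((h + 1) * g + 2 * e) := by
  obtain ⟨r, hr⟩ : ∃ r, n = (h + 1) * g + 2 * e + r := ⟨n - ((h + 1) * g + 2 * e), by omega⟩
  have hcard : Fintype.card ((Fin g × Fin (h + 1)) ⊕ ((Fin e × Fin 2) ⊕ Fin r)) = n := by
    simp only [Fintype.card_sum, Fintype.card_prod, Fintype.card_fin]
    rw [hr]; ring
  let φ := Fintype.equivFinOfCardEq hcard
  set G := cluster (fun v => key g h e r (φ.symm v)) with hG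
  have hdeg : ∀ v, G.degree v = kdeg g h e r (φ.symm v) := by
    intro v
    rw [hG, cluster_degree, ← key_fiber]
    congr 1
    refine Finset.card_bij (fun w _ => φ.symm w) ?_ ?_ ?_
    · intro w hw
      simpa using hw
    · intro w _ w' _ h1
      exact φ.symm.injective h1
    · intro w hw
      refine ⟨φ w, ?_, by simp⟩
      simpa using hw
  have hcc : ∀ d : ℕ, ccdf G (d : ℝ) = (if d ≤ h then (h + 1) * g else 0)
      + (if d ≤ 1 then 2 * e else 0) + (if d = 0 then r else 0) := by
    intro d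
    have h1 : ccdf G (d : ℝ) = #{w | d ≤ kdeg g h e r w} := by
      unfold ccdf
      refine Finset.card_bij (fun w _ => φ.symm w) ?_ ?_ ?_
      · intro w hw
        simp only [Finset.mem_filter, Finset.mem_univ, true_and] at hw ⊢
        rw [hdeg w] at hw
        exact_mod_cast hw
      · intro w _ w' _ h1
        exact φ.symm.injective h1
      · intro w hw
        refine ⟨φ w, ?_, by simp⟩
        simp only [Finset.mem_filter, Finset.mem_univ, true_and] at hw ⊢
        rw [hdeg (φ w)]
        simpa using hw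
    have h2 : ∀ w, (if d ≤ kdeg g h e r w then 1 else 0) = (Sum.elim
        (fun _ => if d ≤ h then 1 else 0) (Sum.elim (fun _ => if d ≤ 1 then 1 else 0)
        (fun _ => if d = 0 then 1 else 0)) w : ℕ) := by
      rintro (w | (w | w))
      · simp only [kdeg, Sum.elim_inl]
        congr
      · simp only [kdeg, Sum.elim_inl, Sum.elim_inr]
        congr
      · simp only [kdeg, Sum.elim_inr, Nat.le_zero]
    rw [h1, Finset.card_filter, Finset.sum_congr rfl (fun w _ => h2 w)]
    simp only [Fintype.sum_sum_type, Sum.elim_inl, Sum.elim_inr, Finset.sum_const,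
      Finset.card_univ, Fintype.card_prod, Fintype.card_fin, smul_eq_mul]
    have : ∀ a b c x y z : ℕ, a = x → b = y → c = z → a + (b + c) = x + y + z := by
      intros; omega
    refine this _ _ _ _ _ _ ?_ ?_ ?_
    · split_ifs <;> ring
    · split_ifs <;> ring
    · split_ifs <;> ring
  have hg1 : 1 ≤ (h + 1) * g := Nat.one_le_iff_ne_zero.mpr (Nat.mul_ne_zero (by omega) (by omega))
  refine ⟨G, ?_, ?_, ?_⟩
  · -- edges
    have h1 := G.sum_degrees_eq_twice_card_edges
    have h2 : ∑ v, G.degree v = (h + 1) * g * h + 2 * e := by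
      rw [Finset.sum_congr rfl (fun v _ => hdeg v)]
      rw [Equiv.sum_comp φ.symm (fun w => kdeg g h e r w)]
      simp only [kdeg, Fintype.sum_sum_type, Sum.elim_inl, Sum.elim_inr, Finset.sum_const,
        Finset.card_univ, Fintype.card_prod, Fintype.card_fin, smul_eq_mul]
      ring
    rw [h2] at h1
    have h3 : h * (h + 1) / 2 * 2 = h * (h + 1) := Nat.div_mul_cancel (Nat.even_mul_succ_self h).two_dvd
    have h4 : 2 * (g * (h * (h + 1) / 2) + e) = (h + 1) * g * h + 2 * e := by
      have : 2 * (g * (h * (h + 1) / 2) + e) = g * (h * (h + 1) / 2 * 2) + 2 * e := by ring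
      rw [this, h3]; ring
    have h5 : 2 * #G.edgeFinset = 2 * (g * (h * (h + 1) / 2) + e) := by
      rw [h4]; convert h1.symm using 2
    omega
  · constructor
    · show h ≤ ccdf G (h : ℝ)
      rw [hcc h, if_pos le_rfl, if_neg (by omega), if_neg (by omega)]
      nlinarith
    · intro d hd
      have hd' : d ≤ ccdf G (d : ℝ) := hd
      by_contra hc
      rw [hcc d, if_neg (by omega), if_neg (by omega), if_neg (by omega)] at hd'
      omega
  · constructor
    · refine ⟨1, le_rfl, ?_, ?_⟩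
      · rw [hcc 1, if_pos (by omega), if_pos le_rfl, if_neg (by omega)]
        omega
      · rw [hcc 1, if_pos (by omega), if_pos le_rfl, if_neg (by omega)]
        ring
    · rintro x ⟨d, hd1, hd2, rfl⟩
      by_cases h1 : d ≤ h
      · by_cases h2 : d ≤ 1
        · have : d = 1 := by omega
          subst this
          rw [hcc 1, if_pos (by omega), if_pos le_rfl, if_neg (by omega)]
          omega
        · rw [hcc d, if_pos h1, if_neg h2, if_neg (by omega)]
          have : 2 * ((h + 1) * g) ≤ d * ((h + 1) * g) := Nat.mul_le_mul_right _ (by omega)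
          simp only [add_zero]
          omega
      · rw [hcc d, if_neg h1, if_neg (by omega), if_neg (by omega)] at hd2
        omega


/-! ### The main theorem -/

lemma log_small (K L : ℕ) (ε : ℝ) (hε : 0 < ε) :
    ∃ g₀ : ℕ, 1 ≤ g₀ ∧ ∀ g : ℕ, g₀ ≤ g →
      64 * ((L : ℝ) * Real.log g) ^ (2 * K) < g * ε ^ (2 * K + 4) := by
  have h1 := Real.isLittleO_pow_log_id_atTop (n := 2 * K)
  set δ : ℝ := ε ^ (2 * K + 4) / (64 * (L : ℝ) ^ (2 * K) + 1) with hδ
  have hδ0 : 0 < δ := by positivity
  have h2 := h1.bound (show (0 : ℝ) < δ / 2 by positivity)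
  have h3 := (tendsto_natCast_atTop_atTop (R := ℝ)).eventually h2
  obtain ⟨g₁, hg₁⟩ := Filter.eventually_atTop.mp h3
  refine ⟨max g₁ 1, le_max_right _ _, fun g hg => ?_⟩
  have h4 := hg₁ g ((le_max_left _ _).trans hg)
  have hg1 : (1 : ℝ) ≤ g := by exact_mod_cast (le_max_right _ _).trans hg
  simp only [id, Real.norm_eq_abs, abs_pow] at h4
  have h5 : |(g : ℝ)| = g := abs_of_nonneg (by linarith)
  have h6 : |Real.log (g : ℝ)| = Real.log g := abs_of_nonneg (Real.log_nonneg hg1)
  rw [h5, h6] at h4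
  have h7 : Real.log (g : ℝ) ^ (2 * K) < δ * g := by nlinarith
  have hc : (0 : ℝ) ≤ 64 * (L : ℝ) ^ (2 * K) := by positivity
  calc 64 * ((L : ℝ) * Real.log g) ^ (2 * K)
      = (64 * (L : ℝ) ^ (2 * K)) * Real.log g ^ (2 * K) := by rw [mul_pow]; ring
    _ ≤ (64 * (L : ℝ) ^ (2 * K) + 1) * Real.log g ^ (2 * K) := by
        have : (0:ℝ) ≤ Real.log g ^ (2 * K) := by positivity
        nlinarith
    _ < (64 * (L : ℝ) ^ (2 * K) + 1) * (δ * g) := by
        apply mul_lt_mul_of_pos_left h7; positivity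
    _ = g * ε ^ (2 * K + 4) := by
        rw [hδ]; field_simp

theorem gap (K L : ℕ) (ε : ℝ) (hε : 0 < ε) (hε1 : ε < 1) :
    ∃ g₀ : ℕ, ∀ g h e n m μ : ℕ, g₀ ≤ g → 2 ≤ h →
      h ^ 2 ≤ g → 2 * e ≤ (h + 1) * g → m = g * (h * (h + 1) / 2) + e →
      μ = (h + 1) * g + 2 * e → μ ≤ n → n ≤ g ^ L →
      (∃ G : SimpleGraph (Fin n), HasParams G m h μ) ∧
      ∃ (A : QueryAlg (Fin n) (ℝ → ℝ)) (q : ℕ), A.MakesAtMost q ∧
        (∀ G : SimpleGraph (Fin n), HasParams G m h μ → 2 / 3 ≤ A.prob G {f | Approx ε G f}) ∧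
        (q : ℝ) * (Real.log n / ε) ^ K < n / h + m / μ := by
  obtain ⟨g₀, hg₀, hlog⟩ := log_small K L ε hε
  refine ⟨g₀, fun g h e n m μ hg hh hhg he hm hμ hn hnL => ?_⟩
  have hg1 : 1 ≤ g := hg₀.trans hg
  have hlt : h < g := by nlinarith
  refine ⟨by subst hm hμ; exact realisable h g e n hh hlt he hn, ?_⟩
  have hμ1 : h * (h + 1) < μ := by nlinarith
  obtain ⟨A, q, hA, hq, hG⟩ := upper n m h μ ε hε hε1 (by omega) hμ1
  refine ⟨A, q, hA, hG, ?_⟩
  have hh0 : (2 : ℝ) ≤ h := by exact_mod_cast hh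
  have hg0 : (1 : ℝ) ≤ g := by exact_mod_cast hg1
  have hμ0 : (h : ℝ) * g ≤ μ := by
    have : h * g ≤ μ := by nlinarith
    exact_mod_cast this
  have hμpos : (0 : ℝ) < μ := lt_of_lt_of_le (by positivity) hμ0
  have hn0 : (1 : ℝ) ≤ n := by
    have : 1 ≤ n := by nlinarith
    exact_mod_cast this
  have hlogn : Real.log n ≤ L * Real.log g := by
    rw [← Real.log_pow]
    exact Real.log_le_log (by linarith) (by exact_mod_cast hnL)
  have hlogn0 : 0 ≤ Real.log n := Real.log_nonneg hn0
  have hB : (n : ℝ) / h ≤ n / h + m / μ := by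
    have : (0 : ℝ) ≤ m / μ := by positivity
    linarith
  refine lt_of_lt_of_le ?_ hB
  -- main estimate
  set Λ : ℝ := ((L : ℝ) * Real.log g) ^ K with hΛ
  have hΛ0 : 0 ≤ Λ := by
    rw [hΛ]; exact pow_nonneg (hlogn0.trans hlogn) _
  have h1 : (Real.log n / ε) ^ K ≤ Λ / ε ^ K := by
    rw [div_pow]
    exact div_le_div_of_nonneg_right (pow_le_pow_left₀ hlogn0 hlogn K) (by positivity)
  have hsq : 64 * Λ ^ 2 < g * (ε ^ (K + 2)) ^ 2 := by
    have := hlog g hg
    rw [hΛ, ← pow_mul, ← pow_mul]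
    have e1 : K * 2 = 2 * K := by ring
    have e2 : (K + 2) * 2 = 2 * K + 4 := by ring
    rw [e1, e2]; exact this
  have hhg' : (h : ℝ) ^ 2 ≤ g := by exact_mod_cast hhg
  have hmain : 8 * h * Λ < g * ε ^ (K + 2) := by
    have hε2 : (0 : ℝ) < ε ^ (K + 2) := by positivity
    refine lt_of_pow_lt_pow_left₀ 2 (by positivity) ?_
    calc (8 * h * Λ) ^ 2 = (h : ℝ) ^ 2 * (64 * Λ ^ 2) := by ring
      _ ≤ g * (64 * Λ ^ 2) := by
          apply mul_le_mul_of_nonneg_right hhg'; positivity
      _ < g * (g * (ε ^ (K + 2)) ^ 2) := by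
          apply mul_lt_mul_of_pos_left hsq; linarith
      _ = (g * ε ^ (K + 2)) ^ 2 := by ring
  calc (q : ℝ) * (Real.log n / ε) ^ K
      ≤ (8 * n * h / (μ * ε ^ 2)) * (Λ / ε ^ K) := by
        apply mul_le_mul hq h1 (by positivity) (by positivity)
    _ = (8 * n * h * Λ) / (μ * ε ^ (K + 2)) := by
        rw [pow_add]; field_simp
    _ < n / h := by
        rw [div_lt_div_iff₀ (by positivity) (by linarith)]
        have h2 : (8 * h * Λ) * h < μ * ε ^ (K + 2) := by
          calc (8 * h * Λ) * h < (g * ε ^ (K + 2)) * h := by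
                apply mul_lt_mul_of_pos_right hmain; linarith
            _ = (h * g) * ε ^ (K + 2) := by ring
            _ ≤ μ * ε ^ (K + 2) := by
                apply mul_le_mul_of_nonneg_right hμ0; positivity
        have h3 : (0 : ℝ) < n := by linarith
        calc 8 * n * h * Λ * h = n * ((8 * h * Λ) * h) := by ring
          _ < n * (μ * ε ^ (K + 2)) := mul_lt_mul_of_pos_left h2 h3

open Classical in
lemma prob_nonneg {V Out : Type} [Fintype V] (G : SimpleGraph V) (S : Set Out) :
    ∀ A : QueryAlg V Out, 0 ≤ A.prob G S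
  | .output o => by simp only [QueryAlg.prob]; split_ifs <;> norm_num
  | .randomVertex next => by
      simp only [QueryAlg.prob]
      exact div_nonneg (Finset.sum_nonneg fun v _ => prob_nonneg G S (next v)) (by positivity)
  | .degree v next => by
      simp only [QueryAlg.prob]; exact prob_nonneg G S _
  | .randomNeighbour v next => by
      simp only [QueryAlg.prob]
      split_ifs
      · exact prob_nonneg G S _
      · exact div_nonneg (Finset.sum_nonneg fun v _ => prob_nonneg G S _) (by positivity)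
  | .coin p next => by
      simp only [QueryAlg.prob]
      have h1 := prob_nonneg G S (next true)
      have h2 := prob_nonneg G S (next false)
      have h3 := p.2.1
      have h4 := p.2.2
      have : 0 ≤ 1 - (p : ℝ) := by linarith
      positivity

open Classical in
lemma prob_union_le {V Out : Type} [Fintype V] (G : SimpleGraph V) (S1 S2 : Set Out)
    (hd : Disjoint S1 S2) :
    ∀ A : QueryAlg V Out, A.prob G S1 + A.prob G S2 ≤ 1
  | .output o => by
      simp only [QueryAlg.prob]
      by_cases h1 : o ∈ S1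
      · have h2 : o ∉ S2 := fun h2 => Set.disjoint_left.mp hd h1 h2
        simp [h1, h2]
      · by_cases h2 : o ∈ S2 <;> simp [h1, h2]
  | .randomVertex next => by
      simp only [QueryAlg.prob]
      rw [← add_div, ← Finset.sum_add_distrib]
      refine div_le_one_of_le₀ ?_ (by positivity)
      refine (Finset.sum_le_sum fun v _ => prob_union_le G S1 S2 hd (next v)).trans ?_
      simp
  | .degree v next => by
      simp only [QueryAlg.prob]; exact prob_union_le G S1 S2 hd _
  | .randomNeighbour v next => by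
      simp only [QueryAlg.prob]
      split_ifs
      · exact prob_union_le G S1 S2 hd _
      · rw [← add_div, ← Finset.sum_add_distrib]
        refine div_le_one_of_le₀ ?_ (by positivity)
        refine (Finset.sum_le_sum fun w _ => prob_union_le G S1 S2 hd _).trans ?_
        simp
  | .coin p next => by
      simp only [QueryAlg.prob]
      have h1 := prob_union_le G S1 S2 hd (next true)
      have h2 := prob_union_le G S1 S2 hd (next false)
      have h3 := p.2.1
      have h4 := p.2.2
      have : 0 ≤ 1 - (p : ℝ) := by linarith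
      nlinarith

lemma prob_le_one {V Out : Type} [Fintype V] (G : SimpleGraph V) (S : Set Out)
    (A : QueryAlg V Out) : A.prob G S ≤ 1 := by
  have h := prob_union_le G S ∅ (Set.disjoint_empty S) A
  have h2 := prob_nonneg G (∅ : Set Out) A
  linarith

open Classical in
/-- Probability that the run on `G` meets the slot `s`. -/
noncomputable def touch {V Out ι : Type} [Fintype V] (own : V → Option ι) (G : SimpleGraph V)
    (s : ι) : QueryAlg V Out → ℝ
  | .output _ => 0
  | .randomVertex next =>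
      (∑ v : V, if own v = some s then 1 else touch own G s (next v)) / Fintype.card V
  | .degree v next => if own v = some s then 1 else touch own G s (next (G.degree v))
  | .randomNeighbour v next =>
      if own v = some s then 1 else
      if G.degree v = 0 then touch own G s (next none)
      else (∑ w ∈ G.neighborFinset v, if own w = some s then 1 else touch own G s (next (some w)))
        / G.degree v
  | .coin p next => p * touch own G s (next true) + (1 - p) * touch own G s (next false)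

open Classical in
lemma touch_nonneg {V Out ι : Type} [Fintype V] (own : V → Option ι) (G : SimpleGraph V) (s : ι) :
    ∀ A : QueryAlg V Out, 0 ≤ touch own G s A
  | .output o => by simp [touch]
  | .randomVertex next => by
      simp only [touch]
      refine div_nonneg (Finset.sum_nonneg fun v _ => ?_) (by positivity)
      split_ifs
      · norm_num
      · exact touch_nonneg own G s _
  | .degree v next => by
      simp only [touch]
      split_ifs
      · norm_num
      · exact touch_nonneg own G s _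
  | .randomNeighbour v next => by
      simp only [touch]
      split_ifs
      · norm_num
      · exact touch_nonneg own G s _
      · refine div_nonneg (Finset.sum_nonneg fun v _ => ?_) (by positivity)
        split_ifs
        · norm_num
        · exact touch_nonneg own G s _
  | .coin p next => by
      simp only [touch]
      have h1 := touch_nonneg own G s (next true)
      have h2 := touch_nonneg own G s (next false)
      have h3 := p.2.1
      have h4 := p.2.2
      have : 0 ≤ 1 - (p : ℝ) := by linarith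
      positivity

open Classical in
lemma sum_ite_own_le {V ι : Type} [Fintype ι] (own : V → Option ι) (v : V) (f : ι → ℝ)
    (hf : ∀ s, 0 ≤ f s) (B : ℝ) (hB : ∑ s, f s ≤ B) :
    ∑ s, (if own v = some s then (1 : ℝ) else f s) ≤ 1 + B := by
  have h1 : ∀ s, (if own v = some s then (1 : ℝ) else f s)
      ≤ (if own v = some s then (1:ℝ) else 0) + f s := by
    intro s
    split_ifs
    · linarith [hf s]
    · linarith
  refine (Finset.sum_le_sum fun s _ => h1 s).trans ?_
  rw [Finset.sum_add_distrib]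
  have h2 : ∑ s, (if own v = some s then (1:ℝ) else 0) ≤ 1 := by
    rcases h : own v with _ | t
    · simp
    · have : ∀ s, (if some t = some s then (1:ℝ) else 0) = if t = s then 1 else 0 := by
        intro s; simp
      rw [Finset.sum_congr rfl (fun s _ => this s)]
      simp
  linarith

open Classical in
lemma sum_touch_le {V Out ι : Type} [Fintype V] [Fintype ι] (own : V → Option ι)
    (G : SimpleGraph V) :
    ∀ (A : QueryAlg V Out) (q : ℕ), A.MakesAtMost q → ∑ s, touch own G s A ≤ 2 * q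
  | .output o, q, _ => by simp [touch]
  | .randomVertex next, 0, h => by simp [QueryAlg.MakesAtMost] at h
  | .randomVertex next, q + 1, h => by
      simp only [QueryAlg.MakesAtMost] at h
      simp only [touch]
      rw [← Finset.sum_div, Finset.sum_comm]
      have h1 : ∀ v : V, ∑ s, (if own v = some s then (1:ℝ) else touch own G s (next v))
          ≤ 1 + 2 * q := fun v =>
        sum_ite_own_le own v _ (fun s => touch_nonneg own G s _) _
          (sum_touch_le own G (next v) q (h v))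
      rcases Nat.eq_zero_or_pos (Fintype.card V) with h0 | h0
      · rw [h0]; simp; positivity
      · rw [div_le_iff₀ (by exact_mod_cast h0)]
        refine (Finset.sum_le_sum fun v _ => h1 v).trans ?_
        simp only [Finset.sum_const, Finset.card_univ, nsmul_eq_mul]
        push_cast
        have : (0:ℝ) ≤ Fintype.card V := by positivity
        nlinarith
  | .degree v next, 0, h => by simp [QueryAlg.MakesAtMost] at h
  | .degree v next, q + 1, h => by
      simp only [QueryAlg.MakesAtMost] at h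
      simp only [touch]
      have := sum_ite_own_le own v (fun s => touch own G s (next (G.degree v)))
        (fun s => touch_nonneg own G s _) _ (sum_touch_le own G _ q (h _))
      push_cast
      linarith
  | .randomNeighbour v next, 0, h => by simp [QueryAlg.MakesAtMost] at h
  | .randomNeighbour v next, q + 1, h => by
      simp only [QueryAlg.MakesAtMost] at h
      simp only [touch]
      have key := sum_ite_own_le own v (fun s => if G.degree v = 0 then touch own G s (next none)
        else (∑ w ∈ G.neighborFinset v, if own w = some s then 1 else touch own G s (next (some w)))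
          / G.degree v) (fun s => by
            show 0 ≤ (if G.degree v = 0 then touch own G s (next none)
              else (∑ w ∈ G.neighborFinset v,
                if own w = some s then 1 else touch own G s (next (some w))) / (G.degree v : ℝ))
            split_ifs
            · exact touch_nonneg own G s _
            · refine div_nonneg (Finset.sum_nonneg fun w _ => ?_) (by positivity)
              split_ifs
              · norm_num
              · exact touch_nonneg own G s _) (1 + 2 * q) (by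
            by_cases h0 : G.degree v = 0
            · simp only [h0, if_true]
              have := sum_touch_le own G _ q (h none)
              linarith
            · simp only [h0, if_false]
              rw [← Finset.sum_div, Finset.sum_comm]
              have h1 : ∀ w : V, ∑ s, (if own w = some s then (1:ℝ) else touch own G s (next (some w)))
                  ≤ 1 + 2 * q := fun w =>
                sum_ite_own_le own w _ (fun s => touch_nonneg own G s _) _
                  (sum_touch_le own G (next (some w)) q (h (some w)))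
              have hpos : (0:ℝ) < G.degree v := by exact_mod_cast Nat.pos_of_ne_zero h0
              rw [div_le_iff₀ hpos]
              refine (Finset.sum_le_sum fun w _ => h1 w).trans ?_
              simp only [Finset.sum_const, nsmul_eq_mul, SimpleGraph.card_neighborFinset_eq_degree]
              nlinarith)
      push_cast
      linarith
  | .coin p next, q, h => by
      simp only [touch]
      have h1 := sum_touch_le own G (next true) q (by
        cases q <;> (simp only [QueryAlg.MakesAtMost] at h; exact h true))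
      have h2 := sum_touch_le own G (next false) q (by
        cases q <;> (simp only [QueryAlg.MakesAtMost] at h; exact h false))
      rw [Finset.sum_add_distrib, ← Finset.mul_sum, ← Finset.mul_sum]
      have h3 := p.2.1
      have h4 := p.2.2
      have : 0 ≤ 1 - (p : ℝ) := by linarith
      nlinarith

open Classical in
/-- `G` and `G0` agree outside the slot `s`. -/
structure Agree {V ι : Type} [Fintype V] (own : V → Option ι) (G0 G : SimpleGraph V) (s : ι) :
    Prop where
  deg : ∀ v, own v ≠ some s → G.degree v = G0.degree v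
  adj : ∀ v w, own v ≠ some s → own w ≠ some s → (G.Adj v w ↔ G0.Adj v w)

open Classical in
lemma prob_le_touch {V Out ι : Type} [Fintype V] (own : V → Option ι)
    (G0 G : SimpleGraph V) (s : ι) (hag : Agree own G0 G s) (S : Set Out) :
    ∀ (A : QueryAlg V Out), A.prob G S ≤ A.prob G0 S + touch own G0 s A
  | .output o => by simp [QueryAlg.prob, touch]
  | .randomVertex next => by
      simp only [QueryAlg.prob, touch]
      rw [← add_div, ← Finset.sum_add_distrib]
      refine div_le_div_of_nonneg_right (Finset.sum_le_sum fun v _ => ?_) (by positivity)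
      split_ifs with h
      · have := prob_le_one G S (next v)
        have := prob_nonneg G0 S (next v)
        linarith
      · exact prob_le_touch own G0 G s hag S (next v)
  | .degree v next => by
      simp only [QueryAlg.prob, touch]
      split_ifs with h
      · have := prob_le_one G S (next (G.degree v))
        have := prob_nonneg G0 S (next (G0.degree v))
        linarith
      · rw [hag.deg v h]
        exact prob_le_touch own G0 G s hag S _
  | .randomNeighbour v next => by
      by_cases h : own v = some s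
      · have h1 := prob_le_one G S (.randomNeighbour v next)
        have h2 := prob_nonneg G0 S (.randomNeighbour v next)
        have h3 : touch own G0 s (.randomNeighbour v next) = 1 := by
          simp only [touch, h, if_true]
        rw [h3]; linarith
      · have hd := hag.deg v h
        by_cases h0 : G0.degree v = 0
        · simp only [QueryAlg.prob, touch, hd, h0, h, if_true, if_false]
          exact prob_le_touch own G0 G s hag S _
        · simp only [QueryAlg.prob, touch, hd, h0, h, if_false]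
          rw [← add_div, ← Finset.sum_add_distrib]
          refine div_le_div_of_nonneg_right ?_ (by positivity)
          -- split neighbours
          have hsplit : ∀ (H : SimpleGraph V) (f : V → ℝ), ∑ w ∈ H.neighborFinset v, f w
              = ∑ w ∈ (H.neighborFinset v).filter (fun w => own w = some s), f w
                + ∑ w ∈ (H.neighborFinset v).filter (fun w => ¬ own w = some s), f w := by
            intro H f
            exact (Finset.sum_filter_add_sum_filter_not _ _ _).symm
          have hcommon : (G.neighborFinset v).filter (fun w => ¬ own w = some s)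
              = (G0.neighborFinset v).filter (fun w => ¬ own w = some s) := by
            ext w
            simp only [Finset.mem_filter, SimpleGraph.mem_neighborFinset]
            constructor
            · rintro ⟨h1, h2⟩; exact ⟨(hag.adj v w h h2).mp h1, h2⟩
            · rintro ⟨h1, h2⟩; exact ⟨(hag.adj v w h h2).mpr h1, h2⟩
          have hcardG := Finset.card_filter_add_card_filter_not (s := G.neighborFinset v)
            (fun w => own w = some s)
          have hcardG0 := Finset.card_filter_add_card_filter_not (s := G0.neighborFinset v)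
            (fun w => own w = some s)
          rw [SimpleGraph.card_neighborFinset_eq_degree] at hcardG hcardG0
          rw [hcommon, hd] at hcardG
          have hcard : #((G.neighborFinset v).filter (fun w => own w = some s))
              = #((G0.neighborFinset v).filter (fun w => own w = some s)) := by omega
          rw [hsplit G, hsplit G0, hcommon]
          refine add_le_add ?_ ?_
          · calc ∑ w ∈ (G.neighborFinset v).filter (fun w => own w = some s),
                  (next (some w)).prob G S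
                ≤ ∑ w ∈ (G.neighborFinset v).filter (fun w => own w = some s), (1:ℝ) :=
                  Finset.sum_le_sum fun w _ => prob_le_one G S _
              _ = ∑ w ∈ (G0.neighborFinset v).filter (fun w => own w = some s), (1:ℝ) := by
                  simp only [Finset.sum_const, hcard]
              _ ≤ _ := by
                  refine Finset.sum_le_sum fun w hw => ?_
                  have hw' := (Finset.mem_filter.mp hw).2
                  rw [if_pos hw']
                  have := prob_nonneg G0 S (next (some w))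
                  linarith
          · refine Finset.sum_le_sum fun w hw => ?_
            have hw' := (Finset.mem_filter.mp hw).2
            rw [if_neg hw']
            exact prob_le_touch own G0 G s hag S _
  | .coin p next => by
      simp only [QueryAlg.prob, touch]
      have h1 := prob_le_touch own G0 G s hag S (next true)
      have h2 := prob_le_touch own G0 G s hag S (next false)
      have h3 := p.2.1
      have h4 := p.2.2
      have : 0 ≤ 1 - (p : ℝ) := by linarith
      nlinarith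

/-- The basic lower bound. -/
theorem slots_le {V Out ι : Type} [Fintype V] [Fintype ι] (own : V → Option ι)
    (G0 : SimpleGraph V) (G1 G2 : ι → SimpleGraph V)
    (h1 : ∀ s, Agree own G0 (G1 s) s) (h2 : ∀ s, Agree own G0 (G2 s) s)
    (S1 S2 : Set Out) (hd : Disjoint S1 S2) (A : QueryAlg V Out) (q : ℕ) (hA : A.MakesAtMost q)
    (hp1 : ∀ s, 2 / 3 ≤ A.prob (G1 s) S1) (hp2 : ∀ s, 2 / 3 ≤ A.prob (G2 s) S2) :
    (Fintype.card ι : ℝ) ≤ 12 * q := by
  have h3 : ∀ s : ι, (1 : ℝ) / 6 ≤ touch own G0 s A := by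
    intro s
    have e1 := prob_le_touch own G0 (G1 s) s (h1 s) S1 A
    have e2 := prob_le_touch own G0 (G2 s) s (h2 s) S2 A
    have e3 := prob_union_le G0 S1 S2 hd A
    have e4 := hp1 s
    have e5 := hp2 s
    linarith
  have h4 := sum_touch_le own G0 A q hA
  have h5 : ∑ s : ι, (1 : ℝ) / 6 ≤ ∑ s, touch own G0 s A := Finset.sum_le_sum fun s _ => h3 s
  simp only [Finset.sum_const, Finset.card_univ, nsmul_eq_mul] at h5
  linarith

open Classical in
/-- degree, without instance issues -/
noncomputable def dg {V : Type} [Fintype V] (G : SimpleGraph V) (v : V) : ℕ :=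
  ∑ w, if G.Adj v w then 1 else 0

lemma degree_eq_dg {V : Type} [Fintype V] (G : SimpleGraph V) (v : V)
    [Fintype (G.neighborSet v)] : G.degree v = dg G v := by
  classical
  unfold dg
  rw [← SimpleGraph.card_neighborFinset_eq_degree, ← Finset.card_filter]
  congr 1
  ext w
  simp

open Classical in
/-- number of vertices of degree at least `d` -/
noncomputable def NN {V : Type} [Fintype V] (G : SimpleGraph V) (d : ℕ) : ℕ :=
  ∑ v : V, if d ≤ dg G v then 1 else 0

/-- sum of the degrees -/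
noncomputable def DS {V : Type} [Fintype V] (G : SimpleGraph V) : ℕ := ∑ v : V, dg G v

open Classical in
lemma ccdf_cast {V : Type} [Fintype V] (G : SimpleGraph V) (d : ℕ) : ccdf G (d : ℝ) = NN G d := by
  unfold ccdf NN
  rw [Finset.card_filter]
  simp only [Nat.cast_le, degree_eq_dg]

lemma ccdf_real {V : Type} [Fintype V] (G : SimpleGraph V) (x : ℝ) : ccdf G x = NN G ⌈x⌉₊ := by
  rw [ccdf_eq_ceil, ccdf_cast]

lemma dg_comap {V W : Type} [Fintype V] [Fintype W] (e : V ≃ W) (G : SimpleGraph W) (v : V) :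
    dg (G.comap e) v = dg G (e v) := by
  classical
  unfold dg
  exact Equiv.sum_comp e (fun w => if G.Adj (e v) w then 1 else 0)

lemma NN_comap {V W : Type} [Fintype V] [Fintype W] (e : V ≃ W) (G : SimpleGraph W) (d : ℕ) :
    NN (G.comap e) d = NN G d := by
  classical
  unfold NN
  simp only [dg_comap]
  exact Equiv.sum_comp e (fun w => if d ≤ dg G w then 1 else 0)

lemma DS_comap {V W : Type} [Fintype V] [Fintype W] (e : V ≃ W) (G : SimpleGraph W) :
    DS (G.comap e) = DS G := by
  unfold DS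
  simp only [dg_comap]
  exact Equiv.sum_comp e (fun w => dg G w)

lemma ccdf_comap {V W : Type} [Fintype V] [Fintype W] (e : V ≃ W) (G : SimpleGraph W) (x : ℝ) :
    ccdf (G.comap e) x = ccdf G x := by
  rw [ccdf_real, ccdf_real, NN_comap]

lemma hasParams_of {V : Type} [Fintype V] (G : SimpleGraph V) (N : ℕ → ℕ)
    (hN : ∀ d, 1 ≤ d → NN G d = N d) (m h μ : ℕ) (hsum : DS G = 2 * m) (hh1 : 1 ≤ h)
    (hh : h ≤ N h) (hgt : ∀ d, h < d → N d < d) (d0 : ℕ) (hd0 : 1 ≤ d0) (h1 : 1 ≤ N d0)
    (hμ : μ = d0 * N d0) (hmin : ∀ d, 1 ≤ d → 1 ≤ N d → μ ≤ d * N d) : HasParams G m h μ := by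
  classical
  refine ⟨?_, ⟨?_, ?_⟩, ⟨?_, ?_⟩⟩
  · have e1 := G.sum_degrees_eq_twice_card_edges
    have e2 : ∑ v, G.degree v = 2 * m := by
      rw [← hsum]
      exact Finset.sum_congr rfl fun v _ => degree_eq_dg G v
    rw [e2] at e1
    have e3 : #G.edgeFinset = m := by omega
    convert e3 using 2
  · show h ≤ ccdf G (h : ℝ)
    rw [ccdf_cast, hN h hh1]; exact hh
  · intro d hd
    have hd' : d ≤ ccdf G (d : ℝ) := hd
    by_contra hc
    rw [ccdf_cast, hN d (by omega)] at hd'
    have := hgt d (by omega)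
    omega
  · refine ⟨d0, hd0, ?_, ?_⟩
    · rw [ccdf_cast, hN d0 hd0]; exact h1
    · rw [ccdf_cast, hN d0 hd0]; exact hμ
  · rintro x ⟨d, hd1, hd2, rfl⟩
    rw [ccdf_cast, hN d hd1] at hd2 ⊢
    exact hmin d hd1 hd2

lemma hasParams_comap {V W : Type} [Fintype V] [Fintype W] (e : V ≃ W) (G : SimpleGraph W)
    {m h μ : ℕ} (hG : HasParams G m h μ) : HasParams (G.comap e) m h μ := by
  classical
  refine ⟨?_, ?_, ?_⟩
  · have e1 := (G.comap e).sum_degrees_eq_twice_card_edges
    have e2 := G.sum_degrees_eq_twice_card_edges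
    have e3 := DS_comap e G
    have e4 := hG.edges
    simp only [degree_eq_dg] at e1 e2
    change DS (G.comap e) = _ at e1
    change DS G = _ at e2
    have e5 : #(G.comap e).edgeFinset = #G.edgeFinset := by omega
    have e7 : #(G.comap e).edgeFinset = m := by
      rw [e5, ← e4]
    convert e7 using 2
    ext x
    simp only [SimpleGraph.mem_edgeFinset]
  · have : {d : ℕ | d ≤ ccdf (G.comap e) d} = {d : ℕ | d ≤ ccdf G d} := by
      ext d; simp only [Set.mem_ofPred_eq, ccdf_comap]
    rw [this]; exact hG.hindex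
  · have : {x : ℕ | ∃ d : ℕ, 1 ≤ d ∧ 1 ≤ ccdf (G.comap e) d ∧ x = d * ccdf (G.comap e) d}
        = {x : ℕ | ∃ d : ℕ, 1 ≤ d ∧ 1 ≤ ccdf G d ∧ x = d * ccdf G d} := by
      ext d; simp only [Set.mem_ofPred_eq, ccdf_comap]
    rw [this]; exact hG.mu

/-- Two families of graphs which agree with a fixed graph outside one slot. -/
structure Worlds (W ι : Type) [Fintype W] where
  own : W → Option ι
  G0 : SimpleGraph W
  G1 : ι → SimpleGraph W
  G2 : ι → SimpleGraph W
  agree1 : ∀ s, Agree own G0 (G1 s) s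
  agree2 : ∀ s, Agree own G0 (G2 s) s

theorem Worlds.lower {V W ι : Type} [Fintype V] [Fintype W] [Fintype ι] (w : Worlds W ι)
    (e : V ≃ W) (m h μ : ℕ) (hp1 : ∀ s, HasParams (w.G1 s) m h μ)
    (hp2 : ∀ s, HasParams (w.G2 s) m h μ) (ε x c1 c2 : ℝ) (hx : 0 ≤ x) (hc : (1 + ε) * c2 < (1 - ε) * c1)
    (hs1 : ∀ s, (ccdf (w.G1 s) ((1 + ε) * x) : ℝ) = c1)
    (hs2 : ∀ s, (ccdf (w.G2 s) ((1 - ε) * x) : ℝ) = c2)
    (A : QueryAlg V (ℝ → ℝ)) (q : ℕ) (hA : A.MakesAtMost q)
    (hok : ∀ G : SimpleGraph V, HasParams G m h μ → 2 / 3 ≤ A.prob G {f | WeakApprox ε G f}) :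
    (Fintype.card ι : ℝ) ≤ 12 * q := by
  classical
  have hag : ∀ (G : SimpleGraph W) (s : ι), Agree w.own w.G0 G s →
      Agree (fun v => w.own (e v)) (w.G0.comap e) (G.comap e) s := by
    intro G s h
    refine ⟨?_, ?_⟩
    · intro v hv
      have h1 := h.deg (e v) hv
      rw [degree_eq_dg, degree_eq_dg] at h1
      rw [degree_eq_dg, degree_eq_dg, dg_comap, dg_comap]; exact h1
    · intro v v' hv hv'
      exact h.adj (e v) (e v') hv hv'
  have hmono : ∀ (G : SimpleGraph V) (S T : Set (ℝ → ℝ)) , S ⊆ T → ∀ B : QueryAlg V (ℝ → ℝ),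
      B.prob G S ≤ B.prob G T := by
    intro G S T hST B
    induction B with
    | output o =>
      simp only [QueryAlg.prob]
      by_cases h1 : o ∈ S
      · simp [h1, hST h1]
      · by_cases h2 : o ∈ T <;> simp [h1, h2]
    | randomVertex next ih =>
      simp only [QueryAlg.prob]
      exact div_le_div_of_nonneg_right (Finset.sum_le_sum fun v _ => ih v) (by positivity)
    | degree v next ih =>
      simp only [QueryAlg.prob]
      exact ih _
    | randomNeighbour v next ih =>
      simp only [QueryAlg.prob]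
      split_ifs
      · exact ih _
      · exact div_le_div_of_nonneg_right (Finset.sum_le_sum fun v _ => ih _) (by positivity)
    | coin p next ih =>
      simp only [QueryAlg.prob]
      have h3 := p.2.1
      have h4 := p.2.2
      have : 0 ≤ 1 - (p : ℝ) := by linarith
      have := ih true
      have := ih false
      nlinarith
  refine slots_le (fun v => w.own (e v)) (w.G0.comap e) (fun s => (w.G1 s).comap e)
    (fun s => (w.G2 s).comap e) (fun s => hag _ s (w.agree1 s)) (fun s => hag _ s (w.agree2 s))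
    {f | (1 - ε) * c1 ≤ f x} {f | f x ≤ (1 + ε) * c2} ?_ A q hA ?_ ?_
  · rw [Set.disjoint_left]
    intro f h1 h2
    simp only [Set.mem_ofPred_eq] at h1 h2
    linarith
  · intro s
    refine (hok _ (hasParams_comap e _ (hp1 s))).trans (hmono _ _ _ ?_ A)
    intro f hf
    have := (hf x hx).1
    rw [ccdf_comap, hs1 s] at this
    exact this
  · intro s
    refine (hok _ (hasParams_comap e _ (hp2 s))).trans (hmono _ _ _ ?_ A)
    intro f hf
    have := (hf x hx).2
    rw [ccdf_comap, hs2 s] at this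
    exact this

/-! ### disjoint sums -/

/-- disjoint sum of two graphs -/
def sumG {X T : Type} (G : SimpleGraph X) (R : SimpleGraph T) : SimpleGraph (X ⊕ T) where
  Adj u v := (∃ a b, u = Sum.inl a ∧ v = Sum.inl b ∧ G.Adj a b) ∨
    (∃ a b, u = Sum.inr a ∧ v = Sum.inr b ∧ R.Adj a b)
  symm := ⟨by
    rintro u v (⟨a, b, rfl, rfl, h⟩ | ⟨a, b, rfl, rfl, h⟩)
    · exact Or.inl ⟨b, a, rfl, rfl, h.symm⟩
    · exact Or.inr ⟨b, a, rfl, rfl, h.symm⟩⟩
  loopless := ⟨by
    rintro u (⟨a, b, h1, h2, h⟩ | ⟨a, b, h1, h2, h⟩)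
    · rw [h1] at h2; cases h2; exact h.ne rfl
    · rw [h1] at h2; cases h2; exact h.ne rfl⟩

lemma sumG_ll {X T : Type} (G : SimpleGraph X) (R : SimpleGraph T) (a b : X) :
    (sumG G R).Adj (Sum.inl a) (Sum.inl b) ↔ G.Adj a b := by
  simp [sumG]

lemma sumG_rr {X T : Type} (G : SimpleGraph X) (R : SimpleGraph T) (a b : T) :
    (sumG G R).Adj (Sum.inr a) (Sum.inr b) ↔ R.Adj a b := by
  simp [sumG]

lemma sumG_lr {X T : Type} (G : SimpleGraph X) (R : SimpleGraph T) (a : X) (b : T) :
    (sumG G R).Adj (Sum.inl a) (Sum.inr b) ↔ False := by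
  simp [sumG]

lemma sumG_rl {X T : Type} (G : SimpleGraph X) (R : SimpleGraph T) (a : T) (b : X) :
    (sumG G R).Adj (Sum.inr a) (Sum.inl b) ↔ False := by
  simp [sumG]

lemma sumG_dg_inl {X T : Type} [Fintype X] [Fintype T] (G : SimpleGraph X) (R : SimpleGraph T)
    (a : X) : dg (sumG G R) (Sum.inl a) = dg G a := by
  classical
  unfold dg
  rw [Fintype.sum_sum_type]
  simp only [sumG_ll, sumG_lr, if_false, Finset.sum_const_zero, add_zero]

lemma sumG_dg_inr {X T : Type} [Fintype X] [Fintype T] (G : SimpleGraph X) (R : SimpleGraph T)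
    (a : T) : dg (sumG G R) (Sum.inr a) = dg R a := by
  classical
  unfold dg
  rw [Fintype.sum_sum_type]
  simp only [sumG_rr, sumG_rl, if_false, Finset.sum_const_zero, zero_add]

lemma NN_sumG {X T : Type} [Fintype X] [Fintype T] (G : SimpleGraph X) (R : SimpleGraph T) (d : ℕ) :
    NN (sumG G R) d = NN G d + NN R d := by
  classical
  unfold NN
  rw [Fintype.sum_sum_type]
  simp only [sumG_dg_inl, sumG_dg_inr]

lemma DS_sumG {X T : Type} [Fintype X] [Fintype T] (G : SimpleGraph X) (R : SimpleGraph T) :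
    DS (sumG G R) = DS G + DS R := by
  classical
  unfold DS
  rw [Fintype.sum_sum_type]
  simp only [sumG_dg_inl, sumG_dg_inr]

/-- adding a common disjoint part -/
def Worlds.sum {X T ι : Type} [Fintype X] [Fintype T] (w : Worlds X ι) (R : SimpleGraph T) :
    Worlds (X ⊕ T) ι where
  own := Sum.elim w.own (fun _ => none)
  G0 := sumG w.G0 R
  G1 := fun s => sumG (w.G1 s) R
  G2 := fun s => sumG (w.G2 s) R
  agree1 := fun s => by
    have h := w.agree1 s
    refine ⟨?_, ?_⟩
    · rintro (v | v) hv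
      · have h1 := h.deg v hv
        rw [degree_eq_dg, degree_eq_dg] at h1
        rw [degree_eq_dg, degree_eq_dg, sumG_dg_inl, sumG_dg_inl]; exact h1
      · rw [degree_eq_dg, degree_eq_dg, sumG_dg_inr, sumG_dg_inr]
    · rintro (v | v) (v' | v') hv hv'
      · rw [sumG_ll, sumG_ll]; exact h.adj v v' hv hv'
      · rw [sumG_lr, sumG_lr]
      · rw [sumG_rl, sumG_rl]
      · rw [sumG_rr, sumG_rr]
  agree2 := fun s => by
    have h := w.agree2 s
    refine ⟨?_, ?_⟩
    · rintro (v | v) hv
      · have h1 := h.deg v hv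
        rw [degree_eq_dg, degree_eq_dg] at h1
        rw [degree_eq_dg, degree_eq_dg, sumG_dg_inl, sumG_dg_inl]; exact h1
      · rw [degree_eq_dg, degree_eq_dg, sumG_dg_inr, sumG_dg_inr]
    · rintro (v | v) (v' | v') hv hv'
      · rw [sumG_ll, sumG_ll]; exact h.adj v v' hv hv'
      · rw [sumG_lr, sumG_lr]
      · rw [sumG_rl, sumG_rl]
      · rw [sumG_rr, sumG_rr]

/-! ### disjoint cliques -/

/-- disjoint cliques of sizes `a k` -/
def cliques {K : Type} (a : K → ℕ) : SimpleGraph (Σ k : K, Fin (a k)) := cluster Sigma.fst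

lemma cliques_dg {K : Type} [Fintype K] (a : K → ℕ) (u : Σ k : K, Fin (a k)) :
    dg (cliques a) u = a u.1 - 1 := by
  classical
  unfold cliques
  rw [← degree_eq_dg, cluster_degree, Finset.card_filter, Fintype.sum_sigma]
  congr 1
  rw [Finset.sum_eq_single u.1]
  · simp
  · intro k _ hk
    simp [hk]
  · simp

lemma NN_cliques {K : Type} [Fintype K] (a : K → ℕ) (d : ℕ) :
    NN (cliques a) d = ∑ k, if d < a k then a k else 0 := by
  classical
  unfold NN
  rw [Fintype.sum_sigma]
  refine Finset.sum_congr rfl fun k _ => ?_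
  simp only [cliques_dg]
  rcases Nat.eq_zero_or_pos (a k) with h0 | h0
  · rw [Finset.sum_const, Finset.card_univ, Fintype.card_fin, h0]; simp
  · by_cases h1 : d < a k
    · have h2 : d ≤ a k - 1 := by omega
      simp [h1, h2]
    · have h2 : ¬ d ≤ a k - 1 := by omega
      simp [h1, h2]

lemma DS_cliques {K : Type} [Fintype K] (a : K → ℕ) :
    DS (cliques a) = ∑ k, a k * (a k - 1) := by
  classical
  unfold DS
  rw [Fintype.sum_sigma]
  refine Finset.sum_congr rfl fun k _ => ?_
  simp only [cliques_dg]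
  simp

/-- disjoint cliques on a type of the right cardinality -/
noncomputable def cliquesOn {K : Type} [Fintype K] (a : K → ℕ) (S : Type) [Fintype S]
    (hS : Fintype.card S = ∑ k, a k) : SimpleGraph S :=
  (cliques a).comap (Fintype.equivOfCardEq (by simp [hS]) : S ≃ Σ k : K, Fin (a k))

lemma NN_cliquesOn {K : Type} [Fintype K] (a : K → ℕ) (S : Type) [Fintype S]
    (hS : Fintype.card S = ∑ k, a k) (d : ℕ) :
    NN (cliquesOn a S hS) d = ∑ k, if d < a k then a k else 0 := by
  unfold cliquesOn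
  rw [NN_comap, NN_cliques]

lemma DS_cliquesOn {K : Type} [Fintype K] (a : K → ℕ) (S : Type) [Fintype S]
    (hS : Fintype.card S = ∑ k, a k) :
    DS (cliquesOn a S hS) = ∑ k, a k * (a k - 1) := by
  unfold cliquesOn
  rw [DS_comap, DS_cliques]

/-! ### one occupied block -/

/-- `P` placed at block `s`, all other blocks empty -/
def place {ι S : Type} (s : ι) (P : SimpleGraph S) : SimpleGraph (ι × S) where
  Adj u v := u.1 = s ∧ v.1 = s ∧ P.Adj u.2 v.2
  symm := ⟨fun _ _ h => ⟨h.2.1, h.1, h.2.2.symm⟩⟩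
  loopless := ⟨fun _ h => h.2.2.ne rfl⟩

open Classical in
lemma place_dg {ι S : Type} [Fintype ι] [Fintype S] (s : ι) (P : SimpleGraph S) (u : ι × S) :
    dg (place s P) u = if u.1 = s then dg P u.2 else 0 := by
  unfold dg
  rw [Fintype.sum_prod_type]
  split_ifs with h
  · rw [Finset.sum_eq_single s]
    · simp [place, h]
    · intro j _ hj
      simp [place, hj]
    · simp
  · simp [place, h]

lemma NN_place {ι S : Type} [Fintype ι] [Fintype S] (s : ι) (P : SimpleGraph S) (d : ℕ)
    (hd : 1 ≤ d) : NN (place s P) d = NN P d := by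
  classical
  unfold NN
  rw [Fintype.sum_prod_type]
  simp only [place_dg]
  rw [Finset.sum_eq_single s]
  · simp
  · intro j _ hj
    have : ¬ d ≤ 0 := by omega
    simp [hj, this]
  · simp

lemma DS_place {ι S : Type} [Fintype ι] [Fintype S] (s : ι) (P : SimpleGraph S) :
    DS (place s P) = DS P := by
  classical
  unfold DS
  rw [Fintype.sum_prod_type]
  simp only [place_dg]
  rw [Finset.sum_eq_single s]
  · simp
  · intro j _ hj
    simp [hj]
  · simp

/-- worlds given by placing `P` or `Q` in one of the blocks -/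
def placeWorlds {ι S : Type} [Fintype ι] [Fintype S] (P Q : SimpleGraph S) :
    Worlds (ι × S) ι where
  own := fun u => some u.1
  G0 := ⊥
  G1 := fun s => place s P
  G2 := fun s => place s Q
  agree1 := fun s => by
    refine ⟨?_, ?_⟩
    · intro v hv
      have hv' : v.1 ≠ s := fun h => hv (by rw [h])
      rw [degree_eq_dg, place_dg, if_neg hv']
      simp
    · intro v w hv hw
      have hv' : v.1 ≠ s := fun h => hv (by rw [h])
      simp [place, hv']
  agree2 := fun s => by
    refine ⟨?_, ?_⟩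
    · intro v hv
      have hv' : v.1 ≠ s := fun h => hv (by rw [h])
      rw [degree_eq_dg, place_dg, if_neg hv']
      simp
    · intro v w hv hw
      have hv' : v.1 ≠ s := fun h => hv (by rw [h])
      simp [place, hv']

lemma DS_even {V : Type} [Fintype V] (G : SimpleGraph V) : ∃ k, DS G = 2 * k := by
  classical
  refine ⟨#G.edgeFinset, ?_⟩
  rw [← G.sum_degrees_eq_twice_card_edges]
  exact Finset.sum_congr rfl fun v _ => (degree_eq_dg G v).symm

/-- number of cliques at level `j` of the low part -/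
def lowx (M j : ℕ) : ℕ := M / 2 ^ (2 * j + 1) + 1

def lowN (M J d : ℕ) : ℕ := ∑ j ∈ range J, if d < 2 ^ (j + 1) then lowx M j * 2 ^ (j + 1) else 0

def lowV (M J : ℕ) : ℕ := ∑ j ∈ range J, lowx M j * 2 ^ (j + 1)

def lowD (M J : ℕ) : ℕ := ∑ j ∈ range J, lowx M j * (2 ^ (j + 1) * (2 ^ (j + 1) - 1))

/-- vertex type of the low part -/
abbrev LowT (M J : ℕ) : Type := Σ k : (Σ j : Fin J, Fin (lowx M j)), Fin (2 ^ ((k.1 : ℕ) + 1))

/-- the low part -/
def low (M J : ℕ) : SimpleGraph (LowT M J) :=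
  cliques (fun k : (Σ j : Fin J, Fin (lowx M j)) => 2 ^ ((k.1 : ℕ) + 1))

lemma NN_low (M J d : ℕ) : NN (low M J) d = lowN M J d := by
  unfold low lowN
  rw [NN_cliques, Fintype.sum_sigma, ← Fin.sum_univ_eq_sum_range
    (fun j => if d < 2 ^ (j + 1) then lowx M j * 2 ^ (j + 1) else 0)]
  refine Finset.sum_congr rfl fun j _ => ?_
  simp only [Finset.sum_const, Finset.card_univ, Fintype.card_fin, smul_eq_mul]
  split_ifs <;> simp

lemma DS_low (M J : ℕ) : DS (low M J) = lowD M J := by
  unfold low lowD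
  rw [DS_cliques, Fintype.sum_sigma, ← Fin.sum_univ_eq_sum_range
    (fun j => lowx M j * (2 ^ (j + 1) * (2 ^ (j + 1) - 1)))]
  refine Finset.sum_congr rfl fun j _ => ?_
  simp only [Finset.sum_const, Finset.card_univ, Fintype.card_fin, smul_eq_mul]

lemma card_low (M J : ℕ) : Fintype.card (LowT M J) = lowV M J := by
  unfold lowV
  rw [Fintype.card_sigma]
  simp only [Fintype.card_fin]
  rw [Fintype.sum_sigma, ← Fin.sum_univ_eq_sum_range
    (fun j => lowx M j * 2 ^ (j + 1))]
  refine Finset.sum_congr rfl fun j _ => ?_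
  simp only [Finset.sum_const, Finset.card_univ, Fintype.card_fin, smul_eq_mul]

lemma lowx_mul (M j : ℕ) : M ≤ lowx M j * 2 ^ (2 * j + 1) := by
  unfold lowx
  have := Nat.div_add_mod M (2 ^ (2 * j + 1))
  have h2 := Nat.mod_lt M (show 0 < 2 ^ (2 * j + 1) by positivity)
  nlinarith

lemma lowx_mul_le (M j : ℕ) : lowx M j * 2 ^ (2 * j + 1) ≤ M + 2 ^ (2 * j + 1) := by
  unfold lowx
  have := Nat.div_mul_le_self M (2 ^ (2 * j + 1))
  nlinarith

lemma lowN_ge (M J d : ℕ) (hd : 1 ≤ d) (hdJ : d < 2 ^ J) : M ≤ d * lowN M J d := by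
  have h1 : 2 ^ Nat.log 2 d ≤ d := Nat.pow_log_le_self 2 (by omega)
  have h2 : d < 2 ^ (Nat.log 2 d + 1) := Nat.lt_pow_succ_log_self (by norm_num) d
  have h3 : Nat.log 2 d < J := by
    by_contra hc
    have : 2 ^ J ≤ 2 ^ Nat.log 2 d := Nat.pow_le_pow_right (by norm_num) (by omega)
    omega
  set j := Nat.log 2 d
  have h4 : lowx M j * 2 ^ (j + 1) ≤ lowN M J d := by
    unfold lowN
    refine le_trans ?_ (Finset.single_le_sum
      (f := fun j => if d < 2 ^ (j + 1) then lowx M j * 2 ^ (j + 1) else 0)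
      (fun i _ => Nat.zero_le _) (Finset.mem_range.mpr h3))
    simp only [h2, if_true]
    exact le_rfl
  calc M ≤ lowx M j * 2 ^ (2 * j + 1) := lowx_mul M j
    _ = 2 ^ j * (lowx M j * 2 ^ (j + 1)) := by ring
    _ ≤ d * lowN M J d := Nat.mul_le_mul h1 h4

lemma lowN_zero (M J d : ℕ) (hdJ : 2 ^ J ≤ d) : lowN M J d = 0 := by
  unfold lowN
  refine Finset.sum_eq_zero fun j hj => ?_
  have : 2 ^ (j + 1) ≤ 2 ^ J := Nat.pow_le_pow_right (by norm_num) (by
    have := Finset.mem_range.mp hj; omega)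
  rw [if_neg (by omega)]

lemma lowV_le (M J : ℕ) : lowV M J ≤ 2 * M + 2 * 2 ^ J := by
  unfold lowV
  have h1 : ∀ j ∈ range J, lowx M j * 2 ^ (j + 1) ≤ M / 2 ^ j + 2 ^ (j + 1) := by
    intro j _
    unfold lowx
    have : M / 2 ^ (2 * j + 1) * 2 ^ (j + 1) ≤ M / 2 ^ j := by
      rw [Nat.le_div_iff_mul_le (by positivity)]
      calc M / 2 ^ (2 * j + 1) * 2 ^ (j + 1) * 2 ^ j = M / 2 ^ (2 * j + 1) * 2 ^ (2 * j + 1) := by
            ring
        _ ≤ M := Nat.div_mul_le_self _ _
    linarith [this]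
  refine (Finset.sum_le_sum h1).trans ?_
  rw [Finset.sum_add_distrib]
  have h2 : ∑ j ∈ range J, M / 2 ^ j ≤ M * 2 / (2 - 1) := Nat.geom_sum_le (by norm_num) M J
  have h3 : ∀ J : ℕ, ∑ j ∈ range J, 2 ^ (j + 1) + 2 = 2 * 2 ^ J := by
    intro J
    induction J with
    | zero => simp
    | succ J ih => rw [Finset.sum_range_succ]; rw [pow_succ 2 (J)]; omega
  have h4 := h3 J
  omega

lemma lowD_le (M J : ℕ) : lowD M J ≤ 2 * J * M + 2 * 4 ^ J := by
  unfold lowD
  have h1 : ∀ j ∈ range J, lowx M j * (2 ^ (j + 1) * (2 ^ (j + 1) - 1)) ≤ 2 * M + 4 ^ (j + 1) := by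
    intro j _
    have h2 := lowx_mul_le M j
    calc lowx M j * (2 ^ (j + 1) * (2 ^ (j + 1) - 1)) ≤ lowx M j * (2 ^ (j + 1) * 2 ^ (j + 1)) := by
          gcongr; exact Nat.sub_le _ _
      _ = 2 * (lowx M j * 2 ^ (2 * j + 1)) := by ring
      _ ≤ 2 * (M + 2 ^ (2 * j + 1)) := by gcongr
      _ = 2 * M + 4 ^ (j + 1) := by
          rw [show (4 : ℕ) = 2 ^ 2 by norm_num, ← pow_mul]; ring
  refine (Finset.sum_le_sum h1).trans ?_
  rw [Finset.sum_add_distrib]
  have h3 : ∀ J : ℕ, ∑ j ∈ range J, 4 ^ (j + 1) ≤ 2 * 4 ^ J := by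
    intro J
    induction J with
    | zero => simp
    | succ J ih => rw [Finset.sum_range_succ]; rw [pow_succ 4 J]; omega
  have h4 := h3 J
  simp only [Finset.sum_const, Finset.card_range, smul_eq_mul]
  nlinarith

/-! ### Case 1 -/

/-- sizes of the cliques in the first block graph -/
def aP (c s : ℕ) : Fin c ⊕ (Fin c × Fin 3) → ℕ := Sum.elim (fun _ => 3 * s) (fun _ => s)

/-- sizes of the cliques in the second block graph -/
def aQ (c s : ℕ) : Fin c × Fin 3 → ℕ := fun _ => 2 * s

lemma card_P (c s : ℕ) : Fintype.card (Fin (6 * s * c)) = ∑ k, aP c s k := by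
  simp [aP, Fintype.sum_sum_type]; ring

lemma card_Q (c s : ℕ) : Fintype.card (Fin (6 * s * c)) = ∑ k, aQ c s k := by
  simp [aQ]; ring

noncomputable def gP (c s : ℕ) : SimpleGraph (Fin (6 * s * c)) := cliquesOn (aP c s) _ (card_P c s)

noncomputable def gQ (c s : ℕ) : SimpleGraph (Fin (6 * s * c)) := cliquesOn (aQ c s) _ (card_Q c s)

lemma NN_gP (c s d : ℕ) : NN (gP c s) d
    = (if d < 3 * s then c * (3 * s) else 0) + (if d < s then c * (3 * s) else 0) := by
  unfold gP
  rw [NN_cliquesOn, Fintype.sum_sum_type]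
  simp only [aP, Sum.elim_inl, Sum.elim_inr, Finset.sum_const, Finset.card_univ, Fintype.card_fin,
    Fintype.card_prod, smul_eq_mul]
  split_ifs <;> ring

lemma NN_gQ (c s d : ℕ) : NN (gQ c s) d = (if d < 2 * s then c * (6 * s) else 0) := by
  unfold gQ
  rw [NN_cliquesOn]
  simp only [aQ, Finset.sum_const, Finset.card_univ, Fintype.card_fin,
    Fintype.card_prod, smul_eq_mul]
  split_ifs <;> ring

lemma DS_gP (c s : ℕ) (hs : 1 ≤ s) : DS (gP c s) = c * (12 * s ^ 2 - 6 * s) := by
  unfold gP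
  rw [DS_cliquesOn, Fintype.sum_sum_type]
  simp only [aP, Sum.elim_inl, Sum.elim_inr, Finset.sum_const, Finset.card_univ, Fintype.card_fin,
    Fintype.card_prod, smul_eq_mul]
  obtain ⟨r, rfl⟩ : ∃ r, s = r + 1 := ⟨s - 1, by omega⟩
  have e1 : 3 * (r + 1) - 1 = 3 * r + 2 := by omega
  have e2 : r + 1 - 1 = r := by omega
  have e3 : 12 * (r + 1) ^ 2 - 6 * (r + 1) = 12 * r ^ 2 + 18 * r + 6 := by
    have : 12 * (r + 1) ^ 2 = (12 * r ^ 2 + 18 * r + 6) + 6 * (r + 1) := by ring
    rw [this]; omega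
  rw [e1, e2, e3]; ring

lemma DS_gQ (c s : ℕ) (hs : 1 ≤ s) : DS (gQ c s) = c * (12 * s ^ 2 - 6 * s) := by
  unfold gQ
  rw [DS_cliquesOn]
  simp only [aQ, Finset.sum_const, Finset.card_univ, Fintype.card_fin,
    Fintype.card_prod, smul_eq_mul]
  obtain ⟨r, rfl⟩ : ∃ r, s = r + 1 := ⟨s - 1, by omega⟩
  have e1 : 2 * (r + 1) - 1 = 2 * r + 1 := by omega
  have e3 : 12 * (r + 1) ^ 2 - 6 * (r + 1) = 12 * r ^ 2 + 18 * r + 6 := by
    have : 12 * (r + 1) ^ 2 = (12 * r ^ 2 + 18 * r + 6) + 6 * (r + 1) := by ring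
    rw [this]; omega
  rw [e1, e3]; ring

/-- vertex type of the visible part in case 1 -/
abbrev VisT (s c M J x d : ℕ) : Type :=
  (Σ _ : Fin c, Fin (4 * s)) ⊕ (LowT M J ⊕ (Σ _ : Fin x, Fin d))

/-- the visible part in case 1 -/
def vis (s c M J x d : ℕ) : SimpleGraph (VisT s c M J x d) :=
  sumG (cliques (fun _ : Fin c => 4 * s)) (sumG (low M J) (cliques (fun _ : Fin x => d)))

lemma NN_vis (s c M J x d1 d : ℕ) : NN (vis s c M J x d1) d
    = (if d < 4 * s then c * (4 * s) else 0) + (lowN M J d + (if d < d1 then x * d1 else 0)) := by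
  unfold vis
  rw [NN_sumG, NN_sumG, NN_low, NN_cliques, NN_cliques]
  simp only [Finset.sum_const, Finset.card_univ, Fintype.card_fin, smul_eq_mul]
  split_ifs <;> simp

lemma DS_vis (s c M J x d1 : ℕ) : DS (vis s c M J x d1)
    = c * (4 * s * (4 * s - 1)) + (lowD M J + x * (d1 * (d1 - 1))) := by
  unfold vis
  rw [DS_sumG, DS_sumG, DS_low, DS_cliques, DS_cliques]
  simp only [Finset.sum_const, Finset.card_univ, Fintype.card_fin, smul_eq_mul]

lemma card_vis (s c M J x d1 : ℕ) : Fintype.card (VisT s c M J x d1)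
    = c * (4 * s) + (lowV M J + x * d1) := by
  rw [Fintype.card_sum, Fintype.card_sum, card_low]
  simp

/-- Every algorithm for the values `(n, m, h, μ)` needs at least `B` queries. -/
def Needs (n m h μ : ℕ) (B : ℝ) : Prop :=
  ∀ ε : ℝ, 0 < ε → ε ≤ 1 / 10 → ∀ (A : QueryAlg (Fin n) (ℝ → ℝ)) (q : ℕ), A.MakesAtMost q →
    (∀ G : SimpleGraph (Fin n), HasParams G m h μ → 2 / 3 ≤ A.prob G {f | WeakApprox ε G f}) →
    B ≤ q

/-- counting function in the first world of case 1 -/
def N1 (s c J x d : ℕ) : ℕ :=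
  ((if d < 3 * s then c * (3 * s) else 0) + (if d < s then c * (3 * s) else 0))
  + ((if d < 4 * s then c * (4 * s) else 0)
    + (lowN (10 * s * c * 2 ^ J) J d + (if d < 2 ^ J then x * 2 ^ J else 0)))

/-- counting function in the second world of case 1 -/
def N2 (s c J x d : ℕ) : ℕ :=
  (if d < 2 * s then c * (6 * s) else 0)
  + ((if d < 4 * s then c * (4 * s) else 0)
    + (lowN (10 * s * c * 2 ^ J) J d + (if d < 2 ^ J then x * 2 ^ J else 0)))

lemma case1_params {V : Type} [Fintype V] (G : SimpleGraph V) (s c J x m : ℕ) (hs : 4 ≤ s)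
    (hc : 1 ≤ c) (hd : 10 * 2 ^ J ≤ 7 * s) (hDS : DS G = 2 * m)
    (hN : (∀ d, 1 ≤ d → NN G d = N1 s c J x d) ∨ (∀ d, 1 ≤ d → NN G d = N2 s c J x d)) :
    HasParams G m (4 * s - 1) (10 * s * c * 2 ^ J) := by
  have hJ0 : 1 ≤ 2 ^ J := Nat.one_le_two_pow
  have hJs : 2 ^ J < s := by omega
  have hsc : s ≤ s * c := Nat.le_mul_of_pos_right s hc
  have e3 : c * (3 * s) = 3 * (s * c) := by ring
  have e4 : c * (4 * s) = 4 * (s * c) := by ring
  have e6 : c * (6 * s) = 6 * (s * c) := by ring
  have hM : 10 * s * c * 2 ^ J = 2 ^ J * (10 * (s * c)) := by ring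
  have hM7 : 10 * s * c * 2 ^ J ≤ s * (7 * (s * c)) := by
    calc 10 * s * c * 2 ^ J = (10 * 2 ^ J) * (s * c) := by ring
      _ ≤ (7 * s) * (s * c) := Nat.mul_le_mul_right _ hd
      _ = s * (7 * (s * c)) := by ring
  have hlow : ∀ d, 2 ^ J ≤ d → lowN (10 * s * c * 2 ^ J) J d = 0 := fun d h => lowN_zero _ _ _ h
  have hlow2 : ∀ d, 1 ≤ d → d < 2 ^ J → 10 * s * c * 2 ^ J ≤ d * lowN (10 * s * c * 2 ^ J) J d :=
    fun d h1 h2 => lowN_ge _ _ _ h1 h2
  rcases hN with hN | hN
  · have hbig : ∀ d, 2 ^ J ≤ d → N1 s c J x d = (if d < 3 * s then 3 * (s * c) else 0)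
        + (if d < s then 3 * (s * c) else 0) + (if d < 4 * s then 4 * (s * c) else 0) := by
      intro d h
      unfold N1
      rw [hlow d h, if_neg (show ¬ d < 2 ^ J by omega), e3, e4]
      ring
    refine hasParams_of G (N1 s c J x) hN m _ _ hDS (by omega) ?_ ?_ (2 ^ J) hJ0 ?_ ?_ ?_
    · rw [hbig _ (by omega), if_neg (by omega), if_neg (by omega), if_pos (by omega)]
      omega
    · intro d h
      rw [hbig _ (by omega), if_neg (by omega), if_neg (by omega), if_neg (by omega)]
      omega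
    · rw [hbig _ le_rfl, if_pos (by omega), if_pos (by omega), if_pos (by omega)]
      omega
    · rw [hbig _ le_rfl, if_pos (by omega), if_pos (by omega), if_pos (by omega), hM]
      ring
    · intro d h1 h2
      by_cases hdJ : d < 2 ^ J
      · refine (hlow2 d h1 hdJ).trans (Nat.mul_le_mul_left d ?_)
        unfold N1
        omega
      · rw [hbig d (by omega)] at h2 ⊢
        by_cases hd1 : d < s
        · rw [if_pos (by omega), if_pos (by omega), if_pos (by omega), hM]
          refine Nat.mul_le_mul (by omega) (by omega)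
        · by_cases hd2 : d < 3 * s
          · rw [if_pos (by omega), if_neg (by omega), if_pos (by omega)]
            refine hM7.trans (Nat.mul_le_mul (by omega) (by omega))
          · by_cases hd3 : d < 4 * s
            · rw [if_neg (by omega), if_neg (by omega), if_pos (by omega)]
              refine hM7.trans ?_
              calc s * (7 * (s * c)) ≤ (3 * s) * (4 * (s * c)) := by
                    have : s * (7 * (s * c)) = 7 * (s * (s * c)) := by ring
                    have : (3 * s) * (4 * (s * c)) = 12 * (s * (s * c)) := by ring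
                    omega
                _ ≤ _ := Nat.mul_le_mul (by omega) (by omega)
            · rw [if_neg (by omega), if_neg (by omega), if_neg (by omega)] at h2
              omega
  · have hbig : ∀ d, 2 ^ J ≤ d → N2 s c J x d = (if d < 2 * s then 6 * (s * c) else 0)
        + (if d < 4 * s then 4 * (s * c) else 0) := by
      intro d h
      unfold N2
      rw [hlow d h, if_neg (show ¬ d < 2 ^ J by omega), e6, e4]
      ring
    refine hasParams_of G (N2 s c J x) hN m _ _ hDS (by omega) ?_ ?_ (2 ^ J) hJ0 ?_ ?_ ?_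
    · rw [hbig _ (by omega), if_neg (by omega), if_pos (by omega)]
      omega
    · intro d h
      rw [hbig _ (by omega), if_neg (by omega), if_neg (by omega)]
      omega
    · rw [hbig _ le_rfl, if_pos (by omega), if_pos (by omega)]
      omega
    · rw [hbig _ le_rfl, if_pos (by omega), if_pos (by omega), hM]
      ring
    · intro d h1 h2
      by_cases hdJ : d < 2 ^ J
      · refine (hlow2 d h1 hdJ).trans (Nat.mul_le_mul_left d ?_)
        unfold N2
        omega
      · rw [hbig d (by omega)] at h2 ⊢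
        by_cases hd1 : d < 2 * s
        · rw [if_pos (by omega), if_pos (by omega), hM]
          refine Nat.mul_le_mul (by omega) (by omega)
        · by_cases hd3 : d < 4 * s
          · rw [if_neg (by omega), if_pos (by omega)]
            refine hM7.trans ?_
            calc s * (7 * (s * c)) ≤ (2 * s) * (4 * (s * c)) := by
                  have : s * (7 * (s * c)) = 7 * (s * (s * c)) := by ring
                  have : (2 * s) * (4 * (s * c)) = 8 * (s * (s * c)) := by ring
                  omega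
              _ ≤ _ := Nat.mul_le_mul (by omega) (by omega)
          · rw [if_neg (by omega), if_neg (by omega)] at h2
            omega

lemma DS_gP_eq (c s : ℕ) (hs : 1 ≤ s) : DS (gP c s) = DS (gQ c s) := by
  rw [DS_gP c s hs, DS_gQ c s hs]

theorem case1 (s c J t x m n : ℕ) (hs : 4 ≤ s) (hc : 1 ≤ c) (hd : 10 * 2 ^ J ≤ 7 * s)
    (ht : 1 ≤ t)
    (hm : 2 * m = c * (12 * s ^ 2 - 6 * s) + (c * (4 * s * (4 * s - 1))
      + (lowD (10 * s * c * 2 ^ J) J + x * (2 ^ J * (2 ^ J - 1)))))
    (hn : n = t * (6 * s * c) + (c * (4 * s) + (lowV (10 * s * c * 2 ^ J) J + x * 2 ^ J))) :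
    (∃ G : SimpleGraph (Fin n), HasParams G m (4 * s - 1) (10 * s * c * 2 ^ J)) ∧
    Needs n m (4 * s - 1) (10 * s * c * 2 ^ J) (t / 12) := by
  classical
  set M := 10 * s * c * 2 ^ J with hM
  let R := vis s c M J x (2 ^ J)
  let w : Worlds ((Fin t × Fin (6 * s * c)) ⊕ VisT s c M J x (2 ^ J)) (Fin t) :=
    (placeWorlds (ι := Fin t) (gP c s) (gQ c s)).sum R
  have hcard : Fintype.card (Fin n)
      = Fintype.card ((Fin t × Fin (6 * s * c)) ⊕ VisT s c M J x (2 ^ J)) := by
    rw [Fintype.card_sum, card_vis, Fintype.card_prod, Fintype.card_fin, Fintype.card_fin,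
      Fintype.card_fin, hn]
  let e := Fintype.equivOfCardEq hcard
  have hN1 : ∀ i : Fin t, ∀ d, 1 ≤ d → NN (w.G1 i) d = N1 s c J x d := by
    intro i d h
    show NN (sumG (place i (gP c s)) R) d = _
    rw [NN_sumG, NN_place _ _ _ h, NN_vis, NN_gP]
    rfl
  have hN2 : ∀ i : Fin t, ∀ d, 1 ≤ d → NN (w.G2 i) d = N2 s c J x d := by
    intro i d h
    show NN (sumG (place i (gQ c s)) R) d = _
    rw [NN_sumG, NN_place _ _ _ h, NN_vis, NN_gQ]
    rfl
  have hD1 : ∀ i : Fin t, DS (w.G1 i) = 2 * m := by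
    intro i
    show DS (sumG (place i (gP c s)) R) = _
    rw [DS_sumG, DS_place, DS_vis, DS_gP c s (by omega), hm]
  have hD2 : ∀ i : Fin t, DS (w.G2 i) = 2 * m := by
    intro i
    show DS (sumG (place i (gQ c s)) R) = _
    rw [DS_sumG, DS_place, DS_vis, DS_gQ c s (by omega), hm]
  have hp1 : ∀ i, HasParams (w.G1 i) m (4 * s - 1) M := fun i =>
    case1_params _ s c J x m hs hc hd (hD1 i) (Or.inl (hN1 i))
  have hp2 : ∀ i, HasParams (w.G2 i) m (4 * s - 1) M := fun i =>
    case1_params _ s c J x m hs hc hd (hD2 i) (Or.inr (hN2 i))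
  refine ⟨⟨_, hasParams_comap e _ (hp1 ⟨0, ht⟩)⟩, ?_⟩
  intro ε hε hε1 A q hA hok
  have hs' : (4 : ℝ) ≤ s := by exact_mod_cast hs
  have hc' : (1 : ℝ) ≤ c := by exact_mod_cast hc
  have hJs : 2 ^ J < s := by omega
  have hsc : (0 : ℝ) < s * c := by positivity
  have key := w.lower e m (4 * s - 1) M hp1 hp2 ε (5 / 2 * s) (7 * (s * c)) (4 * (s * c))
    (by positivity) (by nlinarith) ?_ ?_ A q hA hok
  · rw [Fintype.card_fin] at key
    linarith
  · intro i
    have hy1 : (1 + ε) * (5 / 2 * s) ≤ 3 * s - 1 := by nlinarith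
    have hy2 : (s : ℝ) ≤ (1 + ε) * (5 / 2 * s) := by nlinarith
    set u := ⌈(1 + ε) * (5 / 2 * s)⌉₊ with hu
    have hu1 : u < 3 * s := by
      have h1 : u ≤ 3 * s - 1 := by
        rw [hu, Nat.ceil_le]
        rw [Nat.cast_sub (by omega)]
        push_cast
        linarith
      omega
    have hu2 : s ≤ u := by
      have : (s : ℝ) ≤ u := hy2.trans (Nat.le_ceil _)
      exact_mod_cast this
    rw [ccdf_real, ← hu, hN1 i u (by omega)]
    unfold N1
    rw [if_pos hu1, if_neg (by omega), if_pos (by omega), lowN_zero _ _ _ (by omega),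
      if_neg (by omega)]
    push_cast
    ring
  · intro i
    have hy1 : (1 - ε) * (5 / 2 * s) ≤ 4 * s - 1 := by nlinarith
    have hy2 : 2 * (s : ℝ) ≤ (1 - ε) * (5 / 2 * s) := by nlinarith
    set u := ⌈(1 - ε) * (5 / 2 * s)⌉₊ with hu
    have hu1 : u < 4 * s := by
      have h1 : u ≤ 4 * s - 1 := by
        rw [hu, Nat.ceil_le]
        rw [Nat.cast_sub (by omega)]
        push_cast
        linarith
      omega
    have hu2 : 2 * s ≤ u := by
      have : 2 * (s : ℝ) ≤ u := hy2.trans (Nat.le_ceil _)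
      exact_mod_cast this
    rw [ccdf_real, ← hu, hN2 i u (by omega)]
    unfold N2
    rw [if_neg (by omega), if_pos (by omega), lowN_zero _ _ _ (by omega),
      if_neg (by omega)]
    push_cast
    ring

/-! ### Case 2: bipartite graphs with merged columns -/

abbrev LT (t a : ℕ) : Type := Fin t × Fin 4 × Fin a
abbrev RT (t B r : ℕ) : Type := Fin t × Fin B × Fin r × Fin 4

/-- incidence: the column `(j, b, y)` has four copies, `Q (j, b)` says where each copy goes -/
def EE {t a B r : ℕ} (Q : Fin t × Fin B → Fin 4 → Fin 4) (p : LT t a) (q : RT t B r) : Prop :=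
  p.1 = q.1 ∧ q.2.2.2 = Q (q.1, q.2.1) p.2.1

/-- bipartite graph of the incidence -/
def bip {t : ℕ} (a : ℕ) {B : ℕ} (r : ℕ) (Q : Fin t × Fin B → Fin 4 → Fin 4) :
    SimpleGraph (LT t a ⊕ RT t B r) where
  Adj u v := (∃ p q, u = Sum.inl p ∧ v = Sum.inr q ∧ EE Q p q) ∨
    (∃ p q, u = Sum.inr q ∧ v = Sum.inl p ∧ EE Q p q)
  symm := ⟨by
    rintro u v (⟨a, b, rfl, rfl, h⟩ | ⟨a, b, rfl, rfl, h⟩)
    · exact Or.inr ⟨a, b, rfl, rfl, h⟩
    · exact Or.inl ⟨a, b, rfl, rfl, h⟩⟩
  loopless := ⟨by
    rintro u (⟨a, b, h1, h2, h⟩ | ⟨a, b, h1, h2, h⟩)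
    · rw [h1] at h2; cases h2
    · rw [h1] at h2; cases h2⟩

section merged

variable {t a B r : ℕ}

lemma bip_lr (Q : Fin t × Fin B → Fin 4 → Fin 4) (p : LT t a) (q : RT t B r) :
    (bip a r Q).Adj (Sum.inl p) (Sum.inr q) ↔ EE Q p q := by
  constructor
  · rintro (⟨p', q', h1, h2, h⟩ | ⟨p', q', h1, h2, h⟩)
    · cases h1; cases h2; exact h
    · cases h1
  · intro h
    exact Or.inl ⟨p, q, rfl, rfl, h⟩

lemma bip_rl (Q : Fin t × Fin B → Fin 4 → Fin 4) (p : LT t a) (q : RT t B r) :
    (bip a r Q).Adj (Sum.inr q) (Sum.inl p) ↔ EE Q p q := by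
  rw [SimpleGraph.adj_comm, bip_lr]

lemma bip_ll (Q : Fin t × Fin B → Fin 4 → Fin 4) (p p' : LT t a) :
    (bip a r Q).Adj (Sum.inl p) (Sum.inl p') ↔ False := by
  simp [bip]

lemma bip_rr (Q : Fin t × Fin B → Fin 4 → Fin 4) (q q' : RT t B r) :
    (bip a r Q).Adj (Sum.inr q) (Sum.inr q') ↔ False := by
  simp [bip]

/-- size of a fibre -/
def mult (f : Fin 4 → Fin 4) (l : Fin 4) : ℕ := ∑ k, if l = f k then 1 else 0

lemma bip_dg_l (Q : Fin t × Fin B → Fin 4 → Fin 4) (p : LT t a) :
    dg (bip a r Q) (Sum.inl p) = B * r := by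
  classical
  unfold dg
  rw [Fintype.sum_sum_type]
  simp only [bip_ll, bip_lr, if_false, Finset.sum_const_zero, zero_add]
  simp only [Fintype.sum_prod_type, EE]
  rw [Finset.sum_eq_single p.1]
  · simp
  · intro j _ hj
    have : ¬ p.1 = j := fun h => hj h.symm
    simp [this]
  · simp

lemma bip_dg_r (Q : Fin t × Fin B → Fin 4 → Fin 4) (q : RT t B r) :
    dg (bip a r Q) (Sum.inr q) = a * mult (Q (q.1, q.2.1)) q.2.2.2 := by
  classical
  unfold dg
  rw [Fintype.sum_sum_type]
  simp only [bip_rr, bip_rl, if_false, Finset.sum_const_zero, add_zero]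
  simp only [Fintype.sum_prod_type, EE]
  rw [Finset.sum_eq_single q.1]
  · simp only [true_and, Finset.sum_const, Finset.card_univ, Fintype.card_fin, smul_eq_mul]
    rw [← Finset.mul_sum]
    rfl
  · intro j _ hj
    simp [hj]
  · simp

/-- number of copies with at least `d` neighbours -/
def FF (a d : ℕ) (f : Fin 4 → Fin 4) : ℕ := ∑ l, if d ≤ a * mult f l then 1 else 0

lemma NN_bip (Q : Fin t × Fin B → Fin 4 → Fin 4) (d : ℕ) :
    NN (bip (B * r) r Q) d = (if d ≤ B * r then t * (4 * (B * r)) else 0)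
      + ∑ s, r * FF (B * r) d (Q s) := by
  classical
  unfold NN
  rw [Fintype.sum_sum_type]
  congr 1
  · simp only [bip_dg_l, Finset.sum_const, Finset.card_univ, Fintype.card_fin,
      Fintype.card_prod, smul_eq_mul]
    split_ifs <;> simp
  · simp only [bip_dg_r, Fintype.sum_prod_type]
    refine Finset.sum_congr rfl fun j _ => Finset.sum_congr rfl fun b _ => ?_
    have : ∀ y : Fin r, (∑ l : Fin 4, if d ≤ B * r * mult (Q (j, b)) l then 1 else 0)
        = FF (B * r) d (Q (j, b)) := fun y => rfl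
    rw [Finset.sum_congr rfl fun y _ => this y]
    simp

lemma sum_mult (f : Fin 4 → Fin 4) : ∑ l, mult f l = 4 := by
  unfold mult
  rw [Finset.sum_comm]
  simp

lemma DS_bip (Q : Fin t × Fin B → Fin 4 → Fin 4) :
    DS (bip (B * r) r Q) = t * (4 * (B * r)) * (B * r) + t * (4 * (B * r)) * (B * r) := by
  classical
  unfold DS
  rw [Fintype.sum_sum_type]
  congr 1
  · simp only [bip_dg_l, Finset.sum_const, Finset.card_univ, Fintype.card_fin,
      Fintype.card_prod, smul_eq_mul]
  · simp only [bip_dg_r, Fintype.sum_prod_type, ← Finset.mul_sum, sum_mult, Finset.sum_const,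
      Finset.card_univ, Fintype.card_fin, smul_eq_mul]
    ring

/-- merge pattern of the world `s` -/
def QQ (s : Fin t × Fin B) (p : Fin 4 → Fin 4) (σ : Fin t × Fin B) : Fin 4 → Fin 4 :=
  if σ = s then p else id

/-- all four copies are merged -/
def p1 : Fin 4 → Fin 4 := fun _ => 0
/-- the first two copies are merged -/
def p2 : Fin 4 → Fin 4 := ![0, 0, 2, 3]

lemma FF_id (a d : ℕ) (h : a < d) : FF a d id = 0 := by
  unfold FF
  refine Finset.sum_eq_zero fun l _ => ?_
  have : mult id l = 1 := by unfold mult; simp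
  rw [this, if_neg (by omega)]

lemma FF_p1 (a d : ℕ) (h : a < d) : FF a d p1 = if d ≤ 4 * a then 1 else 0 := by
  have h0 : mult p1 0 = 4 := by decide
  have h1 : mult p1 1 = 0 := by decide
  have h2 : mult p1 2 = 0 := by decide
  have h3 : mult p1 3 = 0 := by decide
  unfold FF
  rw [Fin.sum_univ_four, h0, h1, h2, h3]
  have : ¬ d ≤ a * 0 := by omega
  rw [if_neg this, mul_comm a 4]
  simp

lemma FF_p2 (a d : ℕ) (h : a < d) : FF a d p2 = if d ≤ 2 * a then 1 else 0 := by
  have h0 : mult p2 0 = 2 := by decide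
  have h1 : mult p2 1 = 0 := by decide
  have h2 : mult p2 2 = 1 := by decide
  have h3 : mult p2 3 = 1 := by decide
  unfold FF
  rw [Fin.sum_univ_four, h0, h1, h2, h3]
  have e0 : ¬ d ≤ a * 0 := by omega
  have e1 : ¬ d ≤ a * 1 := by omega
  rw [if_neg e0, if_neg e1, mul_comm a 2]
  simp

lemma NN_QQ (s : Fin t × Fin B) (p : Fin 4 → Fin 4) (d : ℕ) (hd : B * r < d) :
    NN (bip (B * r) r (QQ s p)) d = r * FF (B * r) d p := by
  rw [NN_bip, if_neg (by omega), zero_add, Finset.sum_eq_single s]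
  · simp [QQ]
  · intro σ _ hσ
    simp [QQ, hσ, FF_id _ _ hd]
  · simp

lemma NN_bip_ge (Q : Fin t × Fin B → Fin 4 → Fin 4) (d : ℕ) (hd : d ≤ B * r) :
    t * (4 * (B * r)) ≤ NN (bip (B * r) r Q) d := by
  rw [NN_bip, if_pos hd]
  omega

lemma agree_QQ (s : Fin t × Fin B) (p : Fin 4 → Fin 4) :
    Agree (Sum.elim (fun _ : LT t (B * r) => none) (fun q : RT t B r => some (q.1, q.2.1)))
      (bip (B * r) r (fun _ => id)) (bip (B * r) r (QQ s p)) s := by
  refine ⟨?_, ?_⟩
  · rintro (v | v) hv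
    · rw [degree_eq_dg, degree_eq_dg, bip_dg_l, bip_dg_l]
    · have hv' : (v.1, v.2.1) ≠ s := fun h => hv (by simp [h])
      rw [degree_eq_dg, degree_eq_dg, bip_dg_r, bip_dg_r]
      simp [QQ, hv']
  · rintro (v | v) (w | w) hv hw
    · rw [bip_ll, bip_ll]
    · have hw' : (w.1, w.2.1) ≠ s := fun h => hw (by simp [h])
      rw [bip_lr, bip_lr]
      simp [EE, QQ, hw']
    · have hv' : (v.1, v.2.1) ≠ s := fun h => hv (by simp [h])
      rw [bip_rl, bip_rl]
      simp [EE, QQ, hv']
    · rw [bip_rr, bip_rr]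

/-- the worlds of case 2 -/
def bipWorlds (t B r : ℕ) : Worlds (LT t (B * r) ⊕ RT t B r) (Fin t × Fin B) where
  own := Sum.elim (fun _ => none) (fun q => some (q.1, q.2.1))
  G0 := bip (B * r) r (fun _ => id)
  G1 := fun s => bip (B * r) r (QQ s p1)
  G2 := fun s => bip (B * r) r (QQ s p2)
  agree1 := fun s => agree_QQ s p1
  agree2 := fun s => agree_QQ s p2

/-- vertex type of the visible part in case 2 -/
abbrev VisT2 (M J z : ℕ) : Type := LowT M J ⊕ (Σ _ : Fin z, Fin 1)

/-- the visible part in case 2 -/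
def vis2 (M J z : ℕ) : SimpleGraph (VisT2 M J z) := sumG (low M J) (cliques (fun _ : Fin z => 1))

lemma NN_vis2 (M J z d : ℕ) (hd : 1 ≤ d) : NN (vis2 M J z) d = lowN M J d := by
  unfold vis2
  rw [NN_sumG, NN_low, NN_cliques]
  have : ¬ d < 1 := by omega
  simp [this]

lemma DS_vis2 (M J z : ℕ) : DS (vis2 M J z) = lowD M J := by
  unfold vis2
  rw [DS_sumG, DS_low, DS_cliques]
  simp

lemma card_vis2 (M J z : ℕ) : Fintype.card (VisT2 M J z) = lowV M J + z := by
  rw [Fintype.card_sum, card_low]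
  simp

lemma case2_params {V : Type} [Fintype V] (G : SimpleGraph V) (c m : ℕ) (hc : 2 ≤ c)
    (ht : 1 ≤ t) (hB : 1 ≤ B) (hr : 1 ≤ r) (hDS : DS G = 2 * m)
    (hN1 : ∀ d, B * r < d → NN G d = (if d ≤ c * (B * r) then r else 0)
      + lowN ((B * r + 1) * r) (Nat.log 2 r) d)
    (hN2 : ∀ d, 1 ≤ d → d ≤ B * r → t * (4 * (B * r)) + lowN ((B * r + 1) * r) (Nat.log 2 r) d
      ≤ NN G d) :
    HasParams G m (B * r) ((B * r + 1) * r) := by
  have hlog : 2 ^ Nat.log 2 r ≤ r := Nat.pow_log_le_self 2 (by omega)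
  have hlog2 : r < 2 ^ (Nat.log 2 r + 1) := Nat.lt_pow_succ_log_self (by norm_num) r
  rw [pow_succ] at hlog2
  have hra : r ≤ B * r := Nat.le_mul_of_pos_left r hB
  set a := B * r with ha
  set J := Nat.log 2 r with hJ
  have hca : 2 * a ≤ c * a := Nat.mul_le_mul_right a hc
  have hN1' : ∀ d, a < d → NN G d = if d ≤ c * a then r else 0 := by
    intro d h
    rw [hN1 d h, lowN_zero _ _ _ (by omega), add_zero]
  have hta : 4 * a ≤ t * (4 * a) := Nat.le_mul_of_pos_left _ ht
  refine hasParams_of G (NN G) (fun _ _ => rfl) m _ _ hDS (by omega) ?_ ?_ (a + 1) (by omega)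
    ?_ ?_ ?_
  · have := hN2 a (by omega) le_rfl
    omega
  · intro d h
    rw [hN1' d h]
    split_ifs <;> omega
  · rw [hN1' _ (by omega), if_pos (by omega)]
    exact hr
  · rw [hN1' _ (by omega), if_pos (by omega)]
  · intro d h1 h2
    by_cases hd : a < d
    · rw [hN1' d hd] at h2 ⊢
      split_ifs at h2 ⊢ with h3
      · exact Nat.mul_le_mul_right r hd
      · omega
    · have h3 := hN2 d h1 (by omega)
      by_cases hdJ : d < 2 ^ J
      · refine (lowN_ge _ _ _ h1 hdJ).trans (Nat.mul_le_mul_left d ?_)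
        omega
      · have h4 : 4 * a ≤ NN G d := by omega
        have h5 : r ≤ 2 * d := by omega
        calc (a + 1) * r ≤ (2 * a) * (2 * d) := Nat.mul_le_mul (by omega) h5
          _ = d * (4 * a) := by ring
          _ ≤ d * NN G d := Nat.mul_le_mul_left d h4

theorem case2 (t B r z m n : ℕ) (ht : 1 ≤ t) (hB : 1 ≤ B) (hr : 1 ≤ r)
    (hm : 2 * m = t * (4 * (B * r)) * (B * r) + t * (4 * (B * r)) * (B * r)
      + lowD ((B * r + 1) * r) (Nat.log 2 r))
    (hn : n = t * (4 * (B * r)) + t * (4 * (B * r))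
      + (lowV ((B * r + 1) * r) (Nat.log 2 r) + z)) :
    (∃ G : SimpleGraph (Fin n), HasParams G m (B * r) ((B * r + 1) * r)) ∧
    Needs n m (B * r) ((B * r + 1) * r) (t * B / 12) := by
  classical
  set J := Nat.log 2 r with hJ
  have hlog : 2 ^ J ≤ r := Nat.pow_log_le_self 2 (by omega)
  have hra : r ≤ B * r := Nat.le_mul_of_pos_left r hB
  let R := vis2 ((B * r + 1) * r) J z
  let w : Worlds ((LT t (B * r) ⊕ RT t B r) ⊕ VisT2 ((B * r + 1) * r) J z) (Fin t × Fin B) :=
    (bipWorlds t B r).sum R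
  have hcard : Fintype.card (Fin n)
      = Fintype.card ((LT t (B * r) ⊕ RT t B r) ⊕ VisT2 ((B * r + 1) * r) J z) := by
    rw [Fintype.card_sum, card_vis2, Fintype.card_sum]
    simp only [Fintype.card_prod, Fintype.card_fin]
    rw [hn]
    ring
  let e := Fintype.equivOfCardEq hcard
  have hN : ∀ (s : Fin t × Fin B) (p : Fin 4 → Fin 4) (d : ℕ), B * r < d →
      NN (sumG (bip (B * r) r (QQ s p)) R) d = r * FF (B * r) d p + lowN ((B * r + 1) * r) J d := by
    intro s p d h
    rw [NN_sumG, NN_QQ s p d h, NN_vis2 _ _ _ _ (by omega)]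
  have hNge : ∀ (s : Fin t × Fin B) (p : Fin 4 → Fin 4) (d : ℕ), 1 ≤ d → d ≤ B * r →
      t * (4 * (B * r)) + lowN ((B * r + 1) * r) J d ≤ NN (sumG (bip (B * r) r (QQ s p)) R) d := by
    intro s p d h1 h2
    rw [NN_sumG, NN_vis2 _ _ _ _ h1]
    exact Nat.add_le_add_right (NN_bip_ge _ d h2) _
  have hD : ∀ (s : Fin t × Fin B) (p : Fin 4 → Fin 4),
      DS (sumG (bip (B * r) r (QQ s p)) R) = 2 * m := by
    intro s p
    rw [DS_sumG, DS_bip, DS_vis2, hm]
  have hp1 : ∀ i, HasParams (w.G1 i) m (B * r) ((B * r + 1) * r) := fun i =>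
    case2_params _ 4 m (by norm_num) ht hB hr (hD i p1) (fun d h => by
      have := hN i p1 d h
      rw [FF_p1 _ _ h] at this
      show NN (sumG (bip (B * r) r (QQ i p1)) R) d = _
      rw [this, ← hJ]
      split_ifs <;> simp) (fun d h1 h2 => hNge i p1 d h1 h2)
  have hp2 : ∀ i, HasParams (w.G2 i) m (B * r) ((B * r + 1) * r) := fun i =>
    case2_params _ 2 m le_rfl ht hB hr (hD i p2) (fun d h => by
      have := hN i p2 d h
      rw [FF_p2 _ _ h] at this
      show NN (sumG (bip (B * r) r (QQ i p2)) R) d = _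
      rw [this, ← hJ]
      split_ifs <;> simp) (fun d h1 h2 => hNge i p2 d h1 h2)
  refine ⟨⟨_, hasParams_comap e _ (hp1 (⟨0, ht⟩, ⟨0, hB⟩))⟩, ?_⟩
  intro ε hε hε1 A q hA hok
  have ha1 : (1 : ℝ) ≤ ((B * r : ℕ) : ℝ) := by
    have : 1 ≤ B * r := by omega
    exact_mod_cast this
  have hr1 : (1 : ℝ) ≤ r := by exact_mod_cast hr
  have key := w.lower e m (B * r) ((B * r + 1) * r) hp1 hp2 ε (3 * ((B * r : ℕ) : ℝ)) r 0
    (by positivity) (by nlinarith) ?_ ?_ A q hA hok
  · rw [Fintype.card_prod, Fintype.card_fin, Fintype.card_fin] at key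
    push_cast at key
    linarith
  · intro i
    have hy1 : (1 + ε) * (3 * ((B * r : ℕ) : ℝ)) ≤ 4 * ((B * r : ℕ) : ℝ) := by nlinarith
    have hy2 : 2 * ((B * r : ℕ) : ℝ) < (1 + ε) * (3 * ((B * r : ℕ) : ℝ)) := by nlinarith
    set u := ⌈(1 + ε) * (3 * ((B * r : ℕ) : ℝ))⌉₊ with hu
    have hu1 : u ≤ 4 * (B * r) := by
      rw [hu, Nat.ceil_le]
      push_cast
      push_cast at hy1
      exact hy1
    have hu2 : 2 * (B * r) < u := by
      have : 2 * ((B * r : ℕ) : ℝ) < u := hy2.trans_le (Nat.le_ceil _)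
      exact_mod_cast this
    rw [ccdf_real, ← hu]
    show ((NN (sumG (bip (B * r) r (QQ i p1)) R) u : ℕ) : ℝ) = r
    rw [hN i p1 u (by omega), FF_p1 _ _ (by omega), if_pos hu1, lowN_zero _ _ _ (by omega)]
    simp
  · intro i
    have hy2 : 2 * ((B * r : ℕ) : ℝ) < (1 - ε) * (3 * ((B * r : ℕ) : ℝ)) := by nlinarith
    set u := ⌈(1 - ε) * (3 * ((B * r : ℕ) : ℝ))⌉₊ with hu
    have hu2 : 2 * (B * r) < u := by
      have : 2 * ((B * r : ℕ) : ℝ) < u := hy2.trans_le (Nat.le_ceil _)
      exact_mod_cast this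
    rw [ccdf_real, ← hu]
    show ((NN (sumG (bip (B * r) r (QQ i p2)) R) u : ℕ) : ℝ) = 0
    rw [hN i p2 u (by omega), FF_p2 _ _ (by omega), if_neg (by omega), lowN_zero _ _ _ (by omega)]
    simp

end merged

/-! ### Relations between realisable values -/

section facts

variable {n m h μ : ℕ} {G : SimpleGraph (Fin n)}

lemma DS_params (hG : HasParams G m h μ) : DS G = 2 * m := by
  classical
  have e1 := G.sum_degrees_eq_twice_card_edges
  have e2 := hG.edges
  simp only [degree_eq_dg] at e1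
  change DS G = _ at e1
  rw [e1, ← e2]

lemma NN_le_card (d : ℕ) : NN G d ≤ n := by
  classical
  unfold NN
  rw [← Finset.card_filter]
  refine (Finset.card_le_univ _).trans ?_
  simp

lemma dg_lt (v : Fin n) : dg G v ≤ n := by
  classical
  unfold dg
  rw [← Finset.card_filter]
  refine (Finset.card_le_univ _).trans ?_
  simp

lemma NN_anti {d d' : ℕ} (h : d ≤ d') : NN G d' ≤ NN G d := by
  classical
  unfold NN
  refine Finset.sum_le_sum fun v _ => ?_
  split_ifs <;> omega

lemma f_h (hG : HasParams G m h μ) : 1 ≤ h ∧ h ≤ NN G h := by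
  have h1 : h ≤ ccdf G (h : ℝ) := hG.hindex.1
  rw [ccdf_cast] at h1
  refine ⟨?_, h1⟩
  obtain ⟨d, hd1, hd2, -⟩ := hG.mu.1
  rw [ccdf_cast] at hd2
  have h2 : (1 : ℕ) ≤ NN G 1 := hd2.trans (NN_anti hd1)
  have h3 : (1 : ℕ) ∈ {d : ℕ | d ≤ ccdf G d} := by
    show 1 ≤ ccdf G ((1 : ℕ) : ℝ)
    rw [ccdf_cast]; exact h2
  exact hG.hindex.2 h3

lemma f_top (hG : HasParams G m h μ) : NN G (h + 1) ≤ h := by
  by_contra hc
  have h3 : (h + 1 : ℕ) ∈ {d : ℕ | d ≤ ccdf G d} := by
    show h + 1 ≤ ccdf G ((h + 1 : ℕ) : ℝ)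
    rw [ccdf_cast]; omega
  have := hG.hindex.2 h3
  omega

lemma f_mu (hG : HasParams G m h μ) (d : ℕ) (h1 : 1 ≤ d) (h2 : d ≤ h) : μ ≤ d * NN G d := by
  have h3 := f_h hG
  have h4 : NN G h ≤ NN G d := NN_anti h2
  have := hG.mu.2 ⟨d, h1, by rw [ccdf_cast]; omega, rfl⟩
  rwa [ccdf_cast] at this

lemma f_hn (hG : HasParams G m h μ) : h ≤ n := (f_h hG).2.trans (NN_le_card _)

lemma f_mun (hG : HasParams G m h μ) : μ ≤ n := by
  have h1 := f_mu hG 1 le_rfl (f_h hG).1
  have h2 : NN G 1 ≤ n := NN_le_card 1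
  omega

lemma f_hmu (hG : HasParams G m h μ) : h ≤ μ := by
  have h3 := f_h hG
  obtain ⟨d, hd1, hd2, hd3⟩ := hG.mu.1
  rw [ccdf_cast] at hd2 hd3
  rw [hd3]
  by_cases h4 : h ≤ d
  · calc h ≤ d * 1 := by omega
      _ ≤ d * NN G d := Nat.mul_le_mul_left d hd2
  · have h5 : NN G h ≤ NN G d := NN_anti (by omega)
    calc h ≤ 1 * NN G d := by omega
      _ ≤ d * NN G d := Nat.mul_le_mul_right _ hd1

lemma f_hh (hG : HasParams G m h μ) : h ^ 2 ≤ 2 * m := by
  classical
  have h3 := f_h hG
  rw [← DS_params hG]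
  calc h ^ 2 = h * h := by ring
    _ ≤ h * NN G h := Nat.mul_le_mul_left h h3.2
    _ = ∑ v, h * (if h ≤ dg G v then 1 else 0) := by unfold NN; rw [Finset.mul_sum]
    _ ≤ ∑ v, dg G v := by
        refine Finset.sum_le_sum fun v _ => ?_
        split_ifs <;> omega

lemma f_m (hG : HasParams G m h μ) : m ≤ n * h := by
  classical
  have h3 := f_top hG
  have h4 := DS_params hG
  have h5 : DS G ≤ n * h + n * NN G (h + 1) := by
    calc DS G = ∑ v, dg G v := rfl
      _ ≤ ∑ v : Fin n, (h + n * (if h + 1 ≤ dg G v then 1 else 0)) := by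
          refine Finset.sum_le_sum fun v _ => ?_
          have := dg_lt (G := G) v
          split_ifs <;> omega
      _ = n * h + n * NN G (h + 1) := by
          rw [Finset.sum_add_distrib, ← Finset.mul_sum]
          simp [NN]
  have h6 : n * NN G (h + 1) ≤ n * h := Nat.mul_le_mul_left n h3
  omega

lemma f_harm (hG : HasParams G m h μ) : (μ : ℝ) * (harmonic h : ℝ) ≤ 2 * m := by
  classical
  have h4 := DS_params hG
  have h5 : ∑ d ∈ range h, NN G (d + 1) ≤ DS G := by
    unfold NN DS
    rw [Finset.sum_comm]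
    refine Finset.sum_le_sum fun v _ => ?_
    rw [← Finset.card_filter]
    calc #{d ∈ range h | d + 1 ≤ dg G v} ≤ #(range (dg G v)) := by
          refine Finset.card_le_card fun d hd => ?_
          simp only [Finset.mem_filter, Finset.mem_range] at hd ⊢
          omega
      _ = dg G v := by simp
  have h6 : (∑ d ∈ range h, (NN G (d + 1) : ℝ)) ≤ 2 * m := by
    rw [h4] at h5
    exact_mod_cast h5
  refine le_trans ?_ h6
  rw [harmonic]
  push_cast
  rw [Finset.mul_sum]
  refine Finset.sum_le_sum fun d hd => ?_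
  have h7 := f_mu hG (d + 1) (by omega) (by have := Finset.mem_range.mp hd; omega)
  have h8 : (μ : ℝ) ≤ (d + 1) * NN G (d + 1) := by exact_mod_cast h7
  rw [← div_eq_mul_inv, div_le_iff₀ (by positivity)]
  linarith

lemma f_log (hG : HasParams G m h μ) (k : ℕ) (hk : 2 ^ k ≤ h) : k * μ ≤ 4 * m := by
  have h1 := f_harm hG
  have h2 : Real.log (h + 1 : ℕ) ≤ harmonic h := log_add_one_le_harmonic h
  have h3 : (k : ℝ) * Real.log 2 ≤ Real.log (h + 1 : ℕ) := by
    rw [← Real.log_pow]
    refine Real.log_le_log (by positivity) ?_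
    have : 2 ^ k ≤ h + 1 := by omega
    exact_mod_cast this
  have h4 : (0.5 : ℝ) ≤ Real.log 2 := by
    have := Real.log_two_gt_d9
    linarith
  have h5 : (k : ℝ) * 0.5 ≤ (harmonic h : ℝ) := by
    have : (0 : ℝ) ≤ k := by positivity
    nlinarith
  have h6 : (k : ℝ) * μ ≤ 4 * m := by
    have : (0 : ℝ) ≤ μ := by positivity
    nlinarith
  exact_mod_cast h6

lemma f_mum (hG : HasParams G m h μ) : μ ≤ 2 * m := by
  have h1 := f_harm hG
  have h2 := (f_h hG).1
  have h3 : (1 : ℝ) ≤ (harmonic h : ℝ) := by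
    have : (1 : ℚ) ≤ harmonic h := by
      have h0 : harmonic 1 ≤ harmonic h := by
        unfold harmonic
        refine Finset.sum_le_sum_of_subset_of_nonneg ?_ (fun i _ _ => by positivity)
        exact Finset.range_mono h2
      simpa using h0
    exact_mod_cast this
  have h4 : (μ : ℝ) ≤ 2 * m := by
    have : (0 : ℝ) ≤ μ := by positivity
    nlinarith
  exact_mod_cast h4

end facts

/-- the constant -/
abbrev CC : ℕ := 200000

/-- the conclusion for one realisable quadruple -/
def Good (n m h μ : ℕ) : Prop :=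
  ∃ n' m' h' μ' : ℕ, n ≤ n' ∧ n' ≤ CC * n ∧ m ≤ m' ∧ m' ≤ CC * m ∧ h ≤ h' ∧ h' ≤ CC * h ∧
    μ ≤ μ' ∧ μ' ≤ CC * μ ∧ (∃ G : SimpleGraph (Fin n'), HasParams G m' h' μ') ∧
    Needs n' m' h' μ' (((n' : ℝ) / max (h' : ℝ) ((μ' : ℝ) / h') + (m' : ℝ) / μ') / CC)

lemma needs_mono {n m h μ : ℕ} {B B' : ℝ} (hB : B ≤ B') (h1 : Needs n m h μ B') :
    Needs n m h μ B := fun ε he he' A q hA hok => hB.trans (h1 ε he he' A q hA hok)

lemma floor_succ (N D : ℕ) (hD : 0 < D) : N ≤ (N / D + 1) * D ∧ (N / D + 1) * D ≤ N + D := by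
  have h1 := Nat.div_add_mod N D
  have h2 := Nat.mod_lt N hD
  have h3 : (N / D + 1) * D = D * (N / D) + D := by ring
  rw [h3]
  omega

/-- second regime -/
lemma good2 {n m h μ : ℕ} {G : SimpleGraph (Fin n)} (hG : HasParams G m h μ)
    (hμ : μ ≤ h ^ 2) (hnm : n * μ ≤ m * h) : Good n m h μ := by
  obtain ⟨hh1, -⟩ := f_h hG
  have hhn := f_hn hG
  have hμn := f_mun hG
  have hhμ := f_hmu hG
  have hhm := f_hh hG
  have hmnh := f_m hG
  -- r
  obtain ⟨r, hr1, hr2, hr3, hr4⟩ : ∃ r, 1 ≤ r ∧ μ ≤ h * r ∧ h * r ≤ 2 * μ ∧ r ≤ h := by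
    refine ⟨(μ + h - 1) / h, ?_, ?_, ?_, ?_⟩
    · rw [Nat.le_div_iff_mul_le (by omega)]; omega
    · have h1 := Nat.div_add_mod (μ + h - 1) h
      have h2 := Nat.mod_lt (μ + h - 1) (show h > 0 by omega)
      omega
    · have h1 := Nat.div_mul_le_self (μ + h - 1) h
      rw [mul_comm]; omega
    · have h1 := Nat.div_mul_le_self (μ + h - 1) h
      have h2 : (μ + h - 1) / h < h + 1 := by
        rw [Nat.div_lt_iff_lt_mul (by omega)]
        have : (h + 1) * h = h ^ 2 + h := by ring
        omega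
      omega
  obtain ⟨B, hB1, hB2, hB3⟩ : ∃ B, 1 ≤ B ∧ h ≤ B * r ∧ B * r < h + r := by
    refine ⟨(h + r - 1) / r, ?_, ?_, ?_⟩
    · rw [Nat.le_div_iff_mul_le (by omega)]; omega
    · have h1 := Nat.div_add_mod (h + r - 1) r
      have h2 := Nat.mod_lt (h + r - 1) (show r > 0 by omega)
      rw [mul_comm]; omega
    · have h1 := Nat.div_mul_le_self (h + r - 1) r
      omega
  obtain ⟨t, ht1, ht2, ht3⟩ : ∃ t, 1 ≤ t ∧ m ≤ t * h ^ 2 ∧ t * h ^ 2 ≤ m + h ^ 2 := by
    exact ⟨m / h ^ 2 + 1, Nat.le_add_left 1 _, (floor_succ m (h ^ 2) (by positivity)).1,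
      (floor_succ m (h ^ 2) (by positivity)).2⟩
  set a := B * r with ha
  set J := Nat.log 2 r with hJ
  have hJr : 2 ^ J ≤ r := Nat.pow_log_le_self 2 (by omega)
  have hJm := f_log hG J (by omega)
  -- the values
  have hlD := lowD_le ((a + 1) * r) J
  have hlV := lowV_le ((a + 1) * r) J
  obtain ⟨k, hk⟩ := DS_even (low ((a + 1) * r) J)
  rw [DS_low] at hk
  have hah : a + 1 ≤ 2 * h := by omega
  have hμ' : (a + 1) * r ≤ 4 * μ := by
    calc (a + 1) * r ≤ (2 * h) * r := Nat.mul_le_mul_right r hah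
      _ = 2 * (h * r) := by ring
      _ ≤ 4 * μ := by omega
  have hμ'' : μ ≤ (a + 1) * r := by
    calc μ ≤ h * r := hr2
      _ ≤ (a + 1) * r := Nat.mul_le_mul_right r (by omega)
  have hth : t * h ≤ 2 * n := by
    have h1 : t * h * h ≤ 2 * n * h := by
      calc t * h * h = t * h ^ 2 := by ring
        _ ≤ m + h ^ 2 := ht3
        _ ≤ n * h + n * h := by
            have : h ^ 2 ≤ n * h := by rw [pow_two]; exact Nat.mul_le_mul_right h hhn
            omega
        _ = 2 * n * h := by ring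
    exact Nat.le_of_mul_le_mul_right h1 (by omega)
  have hta : t * a ≤ 4 * n := by
    calc t * a ≤ t * (2 * h) := Nat.mul_le_mul_left t (by omega)
      _ = 2 * (t * h) := by ring
      _ ≤ 4 * n := by omega
  have hta2 : t * a * a ≤ 12 * m := by
    calc t * a * a ≤ t * (2 * h) * (2 * h) := by
          gcongr <;> omega
      _ = 4 * (t * h ^ 2) := by ring
      _ ≤ 12 * m := by omega
  have hta3 : m ≤ t * a * a := by
    calc m ≤ t * h ^ 2 := ht2
      _ = t * h * h := by ring
      _ ≤ t * a * a := by gcongr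
  have h4J : 4 ^ J ≤ 2 * m := by
    calc 4 ^ J = (2 ^ J) ^ 2 := by rw [← pow_mul, mul_comm, pow_mul]; norm_num
      _ ≤ h ^ 2 := Nat.pow_le_pow_left (by omega) 2
      _ ≤ 2 * m := hhm
  have hlD' : lowD ((a + 1) * r) J ≤ 36 * m := by
    calc lowD ((a + 1) * r) J ≤ 2 * J * ((a + 1) * r) + 2 * 4 ^ J := hlD
      _ ≤ 2 * J * (4 * μ) + 2 * (2 * m) := by gcongr
      _ = 8 * (J * μ) + 4 * m := by ring
      _ ≤ 8 * (4 * m) + 4 * m := by gcongr
      _ = 36 * m := by ring
  have hlV' : lowV ((a + 1) * r) J ≤ 10 * n := by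
    calc lowV ((a + 1) * r) J ≤ 2 * ((a + 1) * r) + 2 * 2 ^ J := hlV
      _ ≤ 2 * (4 * μ) + 2 * h := by gcongr; omega
      _ ≤ 10 * n := by omega
  obtain ⟨m', hm'⟩ : ∃ m', m' = t * (4 * a) * a + k := ⟨_, rfl⟩
  obtain ⟨n', hn'⟩ : ∃ n', n' = t * (4 * a) + t * (4 * a) + (lowV ((a + 1) * r) J + n) := ⟨_, rfl⟩
  have e4 : t * (4 * a) = 4 * (t * a) := by ring
  have e5 : t * (4 * a) * a = 4 * (t * a * a) := by ring
  have key := case2 t B r n m' n' ht1 hB1 hr1 (by rw [hm', ← ha, ← hJ, hk]; ring) (by rw [hn'])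
  rw [← ha] at key
  have hn'1 : n ≤ n' := by omega
  have hn'2 : n' ≤ 43 * n := by omega
  have hm'1 : m ≤ m' := by omega
  have hm'2 : m' ≤ 66 * m := by omega
  refine ⟨n', m', a, (a + 1) * r, hn'1, by unfold CC; omega, hm'1, by unfold CC; omega, hB2,
    by unfold CC; omega, hμ'', by unfold CC; omega, key.1, needs_mono ?_ key.2⟩
  -- the final inequality
  have hh0 : (0 : ℝ) < h := by exact_mod_cast hh1
  have hμ0 : (0 : ℝ) < μ := by
    have : 0 < μ := by omega
    exact_mod_cast this
  have hr0 : (0 : ℝ) < r := by exact_mod_cast hr1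
  have b1 : (n' : ℝ) / max (a : ℝ) (((((a + 1) * r : ℕ)) : ℝ) / a) ≤ 43 * ((m : ℝ) / μ) := by
    have h1 : (h : ℝ) ≤ max (a : ℝ) (((((a + 1) * r : ℕ)) : ℝ) / a) :=
      le_max_of_le_left (by exact_mod_cast hB2)
    calc (n' : ℝ) / max (a : ℝ) (((((a + 1) * r : ℕ)) : ℝ) / a) ≤ (n' : ℝ) / h := by gcongr
      _ ≤ (43 * n : ℝ) / h := by gcongr; exact_mod_cast hn'2
      _ = 43 * ((n : ℝ) / h) := by ring
      _ ≤ 43 * ((m : ℝ) / μ) := by
          gcongr ?_ * ?_
          rw [div_le_div_iff₀ hh0 hμ0]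
          exact_mod_cast hnm
  have b2 : (m' : ℝ) / (((a + 1) * r : ℕ) : ℝ) ≤ 66 * ((m : ℝ) / μ) := by
    calc (m' : ℝ) / (((a + 1) * r : ℕ) : ℝ) ≤ (66 * m : ℝ) / μ := by
          gcongr
          exact_mod_cast hm'2
      _ = 66 * ((m : ℝ) / μ) := by ring
  have b3 : (m : ℝ) / μ ≤ 2 * (t * B) := by
    rw [div_le_iff₀ hμ0]
    have : m ≤ 2 * (t * B) * μ := by
      calc m ≤ t * h ^ 2 := ht2
        _ = t * h * h := by ring
        _ ≤ t * h * (B * r) := by gcongr
        _ = (t * B) * (h * r) := by ring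
        _ ≤ (t * B) * (2 * μ) := by gcongr
        _ = 2 * (t * B) * μ := by ring
    exact_mod_cast this
  have b4 : (0 : ℝ) ≤ t * B := by positivity
  rw [div_le_iff₀ (by norm_num [CC])]
  have b5 : ((CC : ℕ) : ℝ) = 200000 := by norm_num [CC]
  rw [b5]
  linarith

/-- first regime -/
lemma good1 {n m h μ : ℕ} {G : SimpleGraph (Fin n)} (hG : HasParams G m h μ)
    (hcase : h ^ 2 ≤ μ ∨ m * h ≤ n * μ) : Good n m h μ := by
  obtain ⟨hh1, -⟩ := f_h hG
  have hhn := f_hn hG
  have hμn := f_mun hG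
  have hhμ := f_hmu hG
  have hhm := f_hh hG
  have hmnh := f_m hG
  have hμm := f_mum hG
  have hpos : 0 < h ^ 2 := by positivity
  obtain ⟨c, hc1, hc2, hc3, hc4⟩ : ∃ c, 1 ≤ c ∧ μ ≤ c * h ^ 2 ∧ c * h ^ 2 ≤ μ + h ^ 2 ∧
      (2 ≤ c → h ^ 2 ≤ μ) := by
    refine ⟨μ / h ^ 2 + 1, Nat.le_add_left 1 _, (floor_succ μ (h ^ 2) hpos).1,
      (floor_succ μ (h ^ 2) hpos).2, ?_⟩
    · intro h3
      have h4 : 1 ≤ μ / h ^ 2 := by omega
      rw [Nat.le_div_iff_mul_le hpos] at h4
      omega
  -- κ
  obtain ⟨κ, hκ1, hκ2, hκ3, hκ4, hκ5⟩ : ∃ κ, 1 ≤ κ ∧ κ ≤ h ∧ h * κ ≤ 2 * μ ∧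
      (μ ≤ h * κ ∨ κ = h) ∧ (h ^ 2 ≤ μ → κ = h) := by
    refine ⟨min ((μ + h - 1) / h) h, ?_, min_le_right _ _, ?_, ?_, ?_⟩
    · refine le_min ?_ hh1
      rw [Nat.le_div_iff_mul_le (by omega)]; omega
    · calc h * min ((μ + h - 1) / h) h ≤ h * ((μ + h - 1) / h) := Nat.mul_le_mul_left h (min_le_left _ _)
        _ = ((μ + h - 1) / h) * h := mul_comm _ _
        _ ≤ μ + h - 1 := Nat.div_mul_le_self _ _
        _ ≤ 2 * μ := by omega
    · rcases le_total ((μ + h - 1) / h) h with h1 | h1
      · left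
        rw [min_eq_left h1]
        have h1 := Nat.div_add_mod (μ + h - 1) h
        have h2 := Nat.mod_lt (μ + h - 1) (show h > 0 by omega)
        omega
      · right
        exact min_eq_right h1
    · intro h1
      refine min_eq_right ?_
      rw [Nat.le_div_iff_mul_le (by omega)]
      have : h * h = h ^ 2 := by ring
      omega
  have hmκ : m ≤ n * κ := by
    by_cases h1 : κ = h
    · rw [h1]; exact hmnh
    · have h2 : ¬ h ^ 2 ≤ μ := fun h3 => h1 (hκ5 h3)
      have h3 : m * h ≤ n * μ := by tauto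
      have h4 : μ ≤ h * κ := by tauto
      have h5 : m * h ≤ (n * κ) * h := by
        calc m * h ≤ n * μ := h3
          _ ≤ n * (h * κ) := Nat.mul_le_mul_left n h4
          _ = (n * κ) * h := by ring
      exact Nat.le_of_mul_le_mul_right h5 (by omega)
  -- J
  obtain ⟨J, hJ1, hJ2, hJ3, hJ4⟩ : ∃ J, κ < 2 ^ J ∧ 2 ^ J ≤ 2 * κ ∧ 2 ≤ 2 ^ J ∧
      J * μ ≤ 6 * m := by
    have h1 : 2 ^ Nat.log 2 κ ≤ κ := Nat.pow_log_le_self 2 (by omega)
    have h2 : κ < 2 ^ (Nat.log 2 κ + 1) := Nat.lt_pow_succ_log_self (by norm_num) κ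
    have h3 := f_log hG (Nat.log 2 κ) (by omega)
    refine ⟨Nat.log 2 κ + 1, h2, ?_, ?_, ?_⟩
    · rw [pow_succ]; omega
    · rw [pow_succ]
      have : 1 ≤ 2 ^ Nat.log 2 κ := Nat.one_le_two_pow
      omega
    · rw [add_mul]; omega
  set d1 := 2 ^ J with hd1
  set s := 4 * h with hs
  set M := 10 * s * c * 2 ^ J with hM
  have hhcκ : μ ≤ h * c * κ := by
    rcases hκ4 with h1 | h1
    · calc μ ≤ h * κ := h1
        _ = h * 1 * κ := by ring
        _ ≤ h * c * κ := by gcongr
    · rw [h1]
      calc μ ≤ c * h ^ 2 := hc2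
        _ = h * c * h := by ring
  have hhcκ2 : h * c * κ ≤ 4 * μ := by
    by_cases h1 : 2 ≤ c
    · have h2 := hc4 h1
      calc h * c * κ ≤ h * c * h := by gcongr
        _ = c * h ^ 2 := by ring
        _ ≤ μ + h ^ 2 := hc3
        _ ≤ 4 * μ := by omega
    · have h2 : c = 1 := by omega
      rw [h2]
      calc h * 1 * κ = h * κ := by ring
        _ ≤ 4 * μ := by omega
  have hM1 : M = 40 * (h * c * d1) := by rw [hM, hs]; ring
  have hM2 : μ ≤ M := by
    rw [hM1]
    have : h * c * κ ≤ h * c * d1 := by gcongr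
    omega
  have hM3 : M ≤ 320 * μ := by
    rw [hM1]
    have : h * c * d1 ≤ 2 * (h * c * κ) := by
      calc h * c * d1 ≤ h * c * (2 * κ) := by gcongr
        _ = 2 * (h * c * κ) := by ring
    omega
  have hhc : h * c ≤ 2 * n := by
    have h1 : h * c * h ≤ 2 * n * h := by
      calc h * c * h = c * h ^ 2 := by ring
        _ ≤ μ + h ^ 2 := hc3
        _ ≤ n * h + n * h := by
            have e1 : h ^ 2 ≤ n * h := by rw [pow_two]; exact Nat.mul_le_mul_right h hhn
            have e2 : n * 1 ≤ n * h := Nat.mul_le_mul_left n hh1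
            omega
        _ = 2 * n * h := by ring
    exact Nat.le_of_mul_le_mul_right h1 (by omega)
  have hsc : s * c ≤ 8 * n := by
    have : s * c = 4 * (h * c) := by rw [hs]; ring
    omega
  obtain ⟨t, ht1, ht2, ht3⟩ : ∃ t, 1 ≤ t ∧ n ≤ t * (6 * s * c) ∧ t * (6 * s * c) ≤ n + 6 * s * c := by
    have hp : 0 < 6 * s * c := by rw [hs]; positivity
    exact ⟨n / (6 * s * c) + 1, Nat.le_add_left 1 _, (floor_succ n _ hp).1,
      (floor_succ n _ hp).2⟩
  have hdd : 0 < d1 * (d1 - 1) := Nat.mul_pos (by omega) (by omega)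
  obtain ⟨x, hx1, hx2, hx3⟩ : ∃ x, 2 * m ≤ x * (d1 * (d1 - 1)) ∧
      x * (d1 * (d1 - 1)) ≤ 2 * m + d1 * (d1 - 1) ∧ x * d1 ≤ 2 * n + d1 := by
    refine ⟨2 * m / (d1 * (d1 - 1)) + 1, (floor_succ _ _ hdd).1, (floor_succ _ _ hdd).2, ?_⟩
    · have h1 := Nat.div_mul_le_self (2 * m) (d1 * (d1 - 1))
      have h2 : 2 * m / (d1 * (d1 - 1)) * d1 * (d1 - 1) ≤ 2 * n * (d1 - 1) := by
        calc 2 * m / (d1 * (d1 - 1)) * d1 * (d1 - 1) = 2 * m / (d1 * (d1 - 1)) * (d1 * (d1 - 1)) := by
              ring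
          _ ≤ 2 * m := h1
          _ ≤ 2 * (n * κ) := by omega
          _ = 2 * n * κ := by ring
          _ ≤ 2 * n * (d1 - 1) := by gcongr; omega
      have h3 : 2 * m / (d1 * (d1 - 1)) * d1 ≤ 2 * n := Nat.le_of_mul_le_mul_right h2 (by omega)
      rw [add_mul]; omega
  have hlD := lowD_le M J
  have hlV := lowV_le M J
  have hd1n : d1 ≤ 2 * h := by omega
  have h4J : 4 ^ J ≤ 8 * m := by
    calc 4 ^ J = (2 ^ J) ^ 2 := by rw [← pow_mul, mul_comm, pow_mul]; norm_num
      _ ≤ (2 * h) ^ 2 := Nat.pow_le_pow_left hd1n 2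
      _ = 4 * h ^ 2 := by ring
      _ ≤ 8 * m := by omega
  have hlD' : lowD M J ≤ 3856 * m := by
    calc lowD M J ≤ 2 * J * M + 2 * 4 ^ J := hlD
      _ ≤ 2 * J * (320 * μ) + 2 * (8 * m) := by gcongr
      _ = 640 * (J * μ) + 16 * m := by ring
      _ ≤ 640 * (6 * m) + 16 * m := by gcongr
      _ = 3856 * m := by ring
  have hlV' : lowV M J ≤ 644 * n := by
    calc lowV M J ≤ 2 * M + 2 * 2 ^ J := hlV
      _ ≤ 2 * (320 * μ) + 2 * (2 * h) := by gcongr
      _ ≤ 644 * n := by omega
  have hdd2 : d1 * (d1 - 1) ≤ 8 * m := by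
    calc d1 * (d1 - 1) ≤ (2 * h) * (2 * h) := by gcongr; omega
      _ = 4 * h ^ 2 := by ring
      _ ≤ 8 * m := by omega
  have hch : c * h ^ 2 ≤ 4 * m := by omega
  have hP : c * (12 * s ^ 2 - 6 * s) ≤ 768 * m := by
    calc c * (12 * s ^ 2 - 6 * s) ≤ c * (12 * s ^ 2) := by gcongr; exact Nat.sub_le _ _
      _ = 192 * (c * h ^ 2) := by rw [hs]; ring
      _ ≤ 768 * m := by omega
  have hV : c * (4 * s * (4 * s - 1)) ≤ 1024 * m := by
    calc c * (4 * s * (4 * s - 1)) ≤ c * (4 * s * (4 * s)) := by gcongr; exact Nat.sub_le _ _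
      _ = 256 * (c * h ^ 2) := by rw [hs]; ring
      _ ≤ 1024 * m := by omega
  -- parity
  obtain ⟨k, hk⟩ := DS_even (sumG (gP c s) (vis s c M J x d1))
  rw [DS_sumG, DS_gP c s (by omega), DS_vis] at hk
  obtain ⟨n', hn'⟩ : ∃ n', n' = t * (6 * s * c) + (c * (4 * s) + (lowV M J + x * d1)) := ⟨_, rfl⟩
  have key := case1 s c J t x k n' (by omega) hc1 (by omega) ht1
    (by rw [← hk]) (by rw [hn'])
  rw [← hM] at key
  have hn'1 : n ≤ n' := by omega
  have hn'2 : n' ≤ 729 * n := by
    have e1 : 6 * s * c = 6 * (s * c) := by ring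
    have e2 : c * (4 * s) = 4 * (s * c) := by ring
    omega
  have hm'1 : m ≤ k := by omega
  have hm'2 : k ≤ 2829 * m := by omega
  refine ⟨n', k, 4 * s - 1, M, hn'1, by unfold CC; omega, hm'1, by unfold CC; omega, by omega,
    by unfold CC; omega, hM2, by unfold CC; omega, key.1, needs_mono ?_ key.2⟩
  have hh0 : (0 : ℝ) < h := by exact_mod_cast hh1
  have hc0 : (1 : ℝ) ≤ c := by exact_mod_cast hc1
  have hsR : (s : ℝ) = 4 * h := by rw [hs]; push_cast; ring
  have hs0 : (0 : ℝ) < s := by rw [hsR]; positivity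
  have hκ0 : (0 : ℝ) < κ := by exact_mod_cast hκ1
  have hMR : (M : ℝ) = 10 * s * c * d1 := by rw [hM, hd1]; push_cast; ring
  have hd1R : (κ : ℝ) ≤ d1 := by exact_mod_cast hJ1.le
  have h4s : ((4 * s - 1 : ℕ) : ℝ) = 4 * s - 1 := by
    rw [Nat.cast_sub (by omega)]; push_cast; ring
  have hden : (s * c : ℝ) / 2 ≤ max ((4 * s - 1 : ℕ) : ℝ) ((M : ℝ) / ((4 * s - 1 : ℕ) : ℝ)) := by
    by_cases h1 : 2 ≤ c
    · refine le_max_of_le_right ?_
      have h2 := hκ5 (hc4 h1)
      rw [h4s, le_div_iff₀ (by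
        have : (1 : ℝ) ≤ h := by exact_mod_cast hh1
        rw [hsR]; linarith), hMR]
      have h3 : (h : ℝ) ≤ d1 := by rw [← h2]; exact hd1R
      have h4 : (s : ℝ) ≤ 4 * d1 := by rw [hsR]; linarith
      have h5 : (0 : ℝ) < s * c := by positivity
      nlinarith
    · refine le_max_of_le_left ?_
      have h2 : c = 1 := by omega
      rw [h4s, h2, hsR]
      have : (1 : ℝ) ≤ h := by exact_mod_cast hh1
      push_cast
      linarith
  have hsc0 : (0 : ℝ) < s * c := by positivity
  have hn'R : (n' : ℝ) ≤ 729 * n := by exact_mod_cast hn'2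
  have hntR : (n : ℝ) ≤ t * (6 * s * c) := by exact_mod_cast ht2
  have b1 : (n' : ℝ) / max ((4 * s - 1 : ℕ) : ℝ) ((M : ℝ) / ((4 * s - 1 : ℕ) : ℝ))
      ≤ 8748 * t := by
    calc (n' : ℝ) / max ((4 * s - 1 : ℕ) : ℝ) ((M : ℝ) / ((4 * s - 1 : ℕ) : ℝ))
        ≤ (n' : ℝ) / ((s * c : ℝ) / 2) := by gcongr
      _ ≤ 8748 * t := by
          rw [div_le_iff₀ (by positivity)]
          have h3 : (n' : ℝ) ≤ 729 * (t * (6 * s * c)) := by linarith
          calc (n' : ℝ) ≤ 729 * (t * (6 * s * c)) := h3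
            _ = (8748 * t) * ((s * c : ℝ) / 2) := by ring
  have hM0 : (0 : ℝ) < M := by rw [hMR]; positivity
  have b2 : (k : ℝ) / M ≤ 1700 * t := by
    rw [div_le_iff₀ hM0, hMR]
    have h1 : (k : ℝ) ≤ 2829 * m := by exact_mod_cast hm'2
    have h2 : (m : ℝ) ≤ n * κ := by exact_mod_cast hmκ
    have h3 : (n : ℝ) * κ ≤ t * (6 * s * c) * κ := by gcongr
    have h4 : (t : ℝ) * (s * c) * κ ≤ t * (s * c) * d1 := by gcongr
    calc (k : ℝ) ≤ 2829 * (t * (6 * s * c) * κ) := by linarith
      _ = 16974 * (t * (s * c) * κ) := by ring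
      _ ≤ 16974 * (t * (s * c) * d1) := by linarith
      _ ≤ 17000 * (t * (s * c) * d1) := by
          have : (0 : ℝ) ≤ t * (s * c) * d1 := by positivity
          linarith
      _ = 1700 * t * (10 * s * c * d1) := by ring
  have ht0 : (0 : ℝ) ≤ t := by positivity
  rw [div_le_iff₀ (by norm_num [CC])]
  have b5 : ((CC : ℕ) : ℝ) = 200000 := by norm_num [CC]
  rw [b5]
  linarith

/-- every realisable quadruple is good -/
theorem good {n m h μ : ℕ} {G : SimpleGraph (Fin n)} (hG : HasParams G m h μ) :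
    Good n m h μ := by
  by_cases h1 : h ^ 2 ≤ μ ∨ m * h ≤ n * μ
  · exact good1 hG h1
  · push Not at h1
    exact good2 hG h1.1.le h1.2.le

/-- The query complexity of the degree-distribution task, as a function of `(n, m, h, μ)`. -/
theorem result :
    (∀ (n m h μ : ℕ) (ε : ℝ), 0 < ε → ε < 1 → 1 ≤ h → h * (h + 1) < μ →
      ∃ q : ℕ, (q : ℝ) ≤ 8 * n * h / (μ * ε ^ 2) ∧ Solvable n m h μ (Approx ε) q) ∧
    (∃ C : ℕ, ∀ n m h μ : ℕ, Realisable n m h μ →
      ∃ n' m' h' μ' : ℕ, (n ≤ n' ∧ n' ≤ C * n) ∧ (m ≤ m' ∧ m' ≤ C * m) ∧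
        (h ≤ h' ∧ h' ≤ C * h) ∧ (μ ≤ μ' ∧ μ' ≤ C * μ) ∧ Realisable n' m' h' μ' ∧
        ∀ ε : ℝ, 0 < ε → ε ≤ 1 / 10 → ∀ q : ℕ, Solvable n' m' h' μ' (WeakApprox ε) q →
          ((n' : ℝ) / max (h' : ℝ) ((μ' : ℝ) / h') + (m' : ℝ) / μ') / C ≤ q) ∧
    (∀ (K L : ℕ) (ε : ℝ), 0 < ε → ε < 1 → ∃ g₀ : ℕ, ∀ g h e n m μ : ℕ, g₀ ≤ g → 2 ≤ h →
      h ^ 2 ≤ g → 2 * e ≤ (h + 1) * g → m = g * (h * (h + 1) / 2) + e →
      μ = (h + 1) * g + 2 * e → μ ≤ n → n ≤ g ^ L → Realisable n m h μ ∧
      ∃ q : ℕ, Solvable n m h μ (Approx ε) q ∧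
        (q : ℝ) * (Real.log n / ε) ^ K < n / h + m / μ) ∧
    (∀ (n : ℕ) (G : SimpleGraph (Fin n)) (ε : ℝ) (f : ℝ → ℝ), 0 < ε → ε < 1 →
      Approx ε G f → WeakApprox ε G f) := by
  refine ⟨?_, ⟨CC, fun n m h μ hG => ?_⟩, ?_, ?_⟩
  · intro n m h μ ε hε hε1 hh hμ
    obtain ⟨A, q, hA, hq, hok⟩ := upper n m h μ ε hε hε1 hh hμ
    exact ⟨q, hq, A, hA, hok⟩
  · obtain ⟨G, hG⟩ := hG
    obtain ⟨n', m', h', μ', h1, h2, h3, h4, h5, h6, h7, h8, h9, h10⟩ := good hG
    refine ⟨n', m', h', μ', ⟨h1, h2⟩, ⟨h3, h4⟩, ⟨h5, h6⟩, ⟨h7, h8⟩, h9, ?_⟩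
    rintro ε hε hε1 q ⟨A, hA, hok⟩
    exact h10 ε hε hε1 A q hA hok
  · intro K L ε hε hε1
    obtain ⟨g₀, hg⟩ := gap K L ε hε hε1
    refine ⟨g₀, fun g h e n m μ a1 a2 a3 a4 a5 a6 a7 a8 => ?_⟩
    obtain ⟨b1, A, q, hA, hok, hq⟩ := hg g h e n m μ a1 a2 a3 a4 a5 a6 a7 a8
    exact ⟨b1, q, ⟨A, hA, hok⟩, hq⟩
  · intro n G ε f hε hε1 hf d hd
    obtain ⟨h1, h2⟩ := hf d hd
    have h3 : (ccdf G ((1 + ε) * d) : ℝ) ≤ ccdf G d := by
      exact_mod_cast ccdf_anti G (by nlinarith)
    have h4 : (ccdf G d : ℝ) ≤ ccdf G ((1 - ε) * d) := by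
      exact_mod_cast ccdf_anti G (by nlinarith)
    constructor
    · refine le_trans ?_ h1
      have : 0 ≤ 1 - ε := by linarith
      exact mul_le_mul_of_nonneg_left h3 this
    · refine h2.trans ?_
      have : 0 ≤ 1 + ε := by linarith
      exact mul_le_mul_of_nonneg_left h4 this

end Pool.Agent.Results.MP_16e32a_lc.AThetaDetermined
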